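import Pool.Agent.K7.H28.GS.L10

/-!
# Smooth hypersurfaces are coarse graphs at small scales
-/

set_option autoImplicit false

open Set Filter Topology Metric Function MeasureTheory
open scoped ContDiff NNReal

noncomputable section

namespace Pool.Agent.K7.H28.GS

open Pool.Agent.Y522

variable {n : ℕ}

theorem normal' {h : E n → ℝ} (hh : Dfn h) {θ : ℝ} (_hθ : 0 < θ) (hθ1 : θ < 1) :
    ∃ r : ℝ, 0 < r ∧ ∀ x, h x = 0 → ∃ ν : E n, ‖ν‖ = 1 ∧
      ∀ y, ‖y - x‖ < r → ∀ v, ‖v - ν‖ ≤ θ → 0 < fderiv ℝ h y v := by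
  obtain ⟨R, c, hc, hR⟩ := hh.far
  have hM : IsCompact {x | h x = 0} := by
    refine (isCompact_closedBall (0 : E n) R).of_isClosed_subset
      (isClosed_eq hh.smooth.continuous continuous_const) fun x hx => ?_
    rw [mem_closedBall_zero_iff]
    by_contra hn
    have h1 := hR x (not_le.1 hn).le
    rw [mem_ofPred_eq] at hx
    linarith
  obtain ⟨r, hr, hcov⟩ := lebesgue_number_lemma_of_metric (ι := {ν : E n // ‖ν‖ = 1})
    (c := fun ν => interior {y | ∀ v, ‖v - ν.1‖ ≤ θ → 0 < fderiv ℝ h y v}) hM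
    (fun ν => isOpen_interior) (fun x hx => by
      obtain ⟨ν, m, hν, hm, hL⟩ := unit_normal (hh.regular x hx)
      refine mem_iUnion.2 ⟨⟨ν, hν⟩, ?_⟩
      rw [mem_interior_iff_mem_nhds]
      have hfd : Continuous (fderiv ℝ h) := hh.smooth.continuous_fderiv (by simp)
      have hq : 0 < m * (1 - θ) / 4 := by
        have : 0 < 1 - θ := by linarith
        positivity
      have h1 : ∀ᶠ y in 𝓝 x, dist (fderiv ℝ h y) (fderiv ℝ h x) < m * (1 - θ) / 4 :=
        hfd.continuousAt.eventually (ball_mem_nhds _ hq)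
      filter_upwards [h1] with y hy
      intro v hv
      rw [dist_eq_norm] at hy
      change ‖v - ν‖ ≤ θ at hv
      have h2 : ‖v‖ ≤ 2 := by
        have h3 : v = ν + (v - ν) := by abel
        rw [h3]
        refine (norm_add_le _ _).trans ?_
        rw [hν]
        linarith
      have h4 : 1 - θ ≤ inner ℝ ν v := by
        have h5 : inner ℝ ν v = inner ℝ ν ν + inner ℝ ν (v - ν) := by
          rw [← inner_add_right]
          congr 1
          abel
        have h6 := (abs_le.1 (abs_real_inner_le_norm ν (v - ν))).1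
        rw [h5, real_inner_self_eq_norm_sq, hν]
        rw [hν, one_mul] at h6
        linarith
      have h7 : |(fderiv ℝ h y - fderiv ℝ h x) v| ≤ m * (1 - θ) / 4 * 2 := by
        have h8 := (fderiv ℝ h y - fderiv ℝ h x).le_opNorm v
        rw [Real.norm_eq_abs] at h8
        refine h8.trans (mul_le_mul hy.le h2 (norm_nonneg _) hq.le)
      have h9 := (abs_le.1 h7).1
      have h10 : (fderiv ℝ h y - fderiv ℝ h x) v = fderiv ℝ h y v - fderiv ℝ h x v := rfl
      rw [h10, hL v] at h9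
      have h11 : m * (1 - θ) ≤ m * inner ℝ ν v := mul_le_mul_of_nonneg_left h4 hm.le
      linarith)
  refine ⟨r, hr, fun x hx => ?_⟩
  obtain ⟨ν, hν⟩ := hcov x hx
  refine ⟨ν.1, ν.2, fun y hy v hv => ?_⟩
  have h1 := interior_subset (hν (show y ∈ ball x r by rwa [mem_ball, dist_eq_norm]))
  exact h1 v hv

theorem exhaust {h : E n → ℝ} (hh : Dfn h) {θ ε : ℝ} (hθ : 0 < θ) (hθ1 : θ < 1) (hε : 0 < ε) :
    ∃ ρ₀ : ℝ, 0 < ρ₀ ∧ ∀ x, h x = 0 → ∀ r, 0 < r → r ≤ ρ₀ → ∃ ν : E n, ‖ν‖ = 1 ∧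
      Crs θ ε h x r ν := by
  obtain ⟨r₀, hr₀, key⟩ := normal' hh hθ hθ1
  refine ⟨r₀ / 2, by positivity, fun x hx r hr hr' => ?_⟩
  obtain ⟨ν, hν, hpos⟩ := key x hx
  refine ⟨ν, hν, fun y y' τ hy hy' hτ hd h0 => ?_⟩
  have hτ0 : 0 < τ := lt_of_lt_of_le (mul_pos hε hr) hτ
  obtain ⟨v, hv⟩ : ∃ v : E n, v = τ⁻¹ • (y' - y) := ⟨_, rfl⟩
  have hyv : y' - y = τ • v := by rw [hv, smul_smul, mul_inv_cancel₀ hτ0.ne', one_smul]
  have hvν : ‖v - ν‖ ≤ θ := by
    have e : y' - y - τ • ν = τ • (v - ν) := by rw [hyv, smul_sub]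
    rw [e, norm_smul, Real.norm_of_nonneg hτ0.le, mul_comm] at hd
    exact le_of_mul_le_mul_right hd hτ0
  obtain ⟨f, hf⟩ : ∃ f : ℝ → ℝ, f = fun s => h (y + s • (y' - y)) := ⟨_, rfl⟩
  have hfd : ∀ s, HasDerivAt f (fderiv ℝ h (y + s • (y' - y)) (y' - y)) s := by
    intro s
    have e1 : HasDerivAt (fun s : ℝ => y + s • (y' - y)) ((1 : ℝ) • (y' - y)) s :=
      ((hasDerivAt_id s).smul_const (y' - y)).const_add y
    rw [one_smul] at e1
    rw [hf]
    exact (((hh.smooth.differentiable (by simp)) _).hasFDerivAt).comp_hasDerivAt s e1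
  have hin : ∀ s : ℝ, 0 ≤ s → s ≤ 1 → ‖y + s • (y' - y) - x‖ < r₀ := by
    intro s hs0 hs1
    have e : y + s • (y' - y) - x = (1 - s) • (y - x) + s • (y' - x) := by
      simp only [sub_smul, smul_sub, one_smul]
      abel
    rw [e]
    refine lt_of_le_of_lt (norm_add_le _ _) ?_
    rw [norm_smul, norm_smul, Real.norm_of_nonneg hs0, Real.norm_of_nonneg (sub_nonneg.2 hs1)]
    have a1 := mul_le_mul_of_nonneg_left hy (sub_nonneg.2 hs1)
    have a2 := mul_le_mul_of_nonneg_left hy' hs0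
    linarith
  have hmono : StrictMonoOn f (Icc 0 1) := by
    refine strictMonoOn_of_deriv_pos (convex_Icc _ _)
      (continuousOn_of_forall_continuousAt fun s _ => (hfd s).continuousAt) fun s hs => ?_
    rw [interior_Icc] at hs
    rw [(hfd s).deriv, hyv, map_smul, smul_eq_mul, ← hyv]
    exact mul_pos hτ0 (hpos _ (hin s hs.1.le hs.2.le) v hvν)
  have h1 := hmono ⟨le_rfl, zero_le_one⟩ ⟨zero_le_one, le_rfl⟩ one_pos
  rw [hf] at h1
  simp only [zero_smul, add_zero, one_smul, add_sub_cancel] at h1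
  linarith

end Pool.Agent.K7.H28.GS
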