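import Pool.Agent.K7.H28.GS.L4

/-!
# Defining functions of closed hypersurfaces: small scales
-/

set_option autoImplicit false

open Set Filter Topology Metric Function MeasureTheory
open scoped ContDiff NNReal

noncomputable section

namespace Pool.Agent.K7.H28.GS

open Pool.Agent.Y522 Pool.Agent.Y954.SH Pool.Agent.K7.H28.AF Pool.Agent.K7.H28.CB
open Pool.Agent.Y207.SH3 (kr_smul_integrable kr_cont kr_support)

variable {n : ℕ}

/-- `h` is the defining function of a closed hypersurface, positive outside -/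
structure Dfn (h : E n → ℝ) : Prop where
  smooth : ContDiff ℝ ∞ h
  far : ∃ R c : ℝ, 0 < c ∧ ∀ x, R ≤ ‖x‖ → c ≤ h x
  regular : ∀ x, h x = 0 → fderiv ℝ h x ≠ 0

/-- the profile functions -/
structure Prf (ψ : ℝ → ℝ) : Prop where
  smooth : ContDiff ℝ ∞ ψ
  le : ∀ x, |ψ x| ≤ 1
  one : ∀ x, 1 ≤ x → ψ x = 1
  neg : ∀ x, x ≤ -1 → ψ x = -1
  lt : ∀ x, |x| < 1 → |ψ x| < 1
  dpos : ∀ x, |x| < 1 → 0 < deriv ψ x
  dnn : ∀ x, 0 ≤ deriv ψ x
  dzero : ∀ x, 1 ≤ |x| → deriv ψ x = 0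
  zero : ψ 0 = 0
  pos : ∀ x, 0 < ψ x ↔ 0 < x
  sneg : ∀ x, ψ x < 0 ↔ x < 0

theorem exists_prf : ∃ ψ : ℝ → ℝ, Prf ψ := by
  obtain ⟨ψ, h1, h2, h3, h4, h5, h6, h7, h8, h9, h10, h11⟩ := exists_profile
  exact ⟨ψ, ⟨h1, h2, h3, h4, h5, h6, h7, h8, h9, h10, h11⟩⟩

theorem layer {h : E n → ℝ} (hh : Dfn h) {d : ℝ} (hd : 0 < d) :
    ∃ κ : ℝ, 0 < κ ∧ ∀ y, |h y| < κ → ∃ x, h x = 0 ∧ ‖x - y‖ ≤ d := by
  obtain ⟨R, c, hc, hR⟩ := hh.far
  obtain ⟨S, hS⟩ : ∃ S : Set (E n), S = closedBall 0 R ∩ ⋂ x ∈ {x | h x = 0}, {y | d ≤ ‖x - y‖} :=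
    ⟨_, rfl⟩
  have hSc : IsCompact S := by
    rw [hS]
    refine (isCompact_closedBall _ _).inter_right ?_
    refine isClosed_biInter fun x _ => ?_
    exact isClosed_le continuous_const (by fun_prop)
  have hne : ∀ y ∈ S, h y ≠ 0 := by
    intro y hy h0
    rw [hS] at hy
    have h1 := mem_iInter₂.1 hy.2 y h0
    rw [mem_ofPred_eq, sub_self, norm_zero] at h1
    linarith
  have key : ∃ κ : ℝ, 0 < κ ∧ ∀ y ∈ S, κ ≤ |h y| := by
    rcases S.eq_empty_or_nonempty with h0 | h0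
    · exact ⟨1, one_pos, fun y hy => by rw [h0] at hy; exact absurd hy (notMem_empty y)⟩
    · obtain ⟨y₀, hy₀, hmin⟩ := hSc.exists_isMinOn h0 (hh.smooth.continuous.abs.continuousOn)
      exact ⟨|h y₀|, abs_pos.2 (hne y₀ hy₀), fun y hy => hmin hy⟩
  obtain ⟨κ, hκ, hκS⟩ := key
  refine ⟨min κ c, lt_min hκ hc, fun y hy => ?_⟩
  by_contra hcon
  push Not at hcon
  have hyR : ‖y‖ ≤ R := by
    by_contra hn
    have h1 := hR y (not_le.1 hn).le
    have h2 := le_abs_self (h y)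
    have h3 := min_le_right κ c
    linarith
  have hyS : y ∈ S := by
    rw [hS]
    refine ⟨mem_closedBall_zero_iff.2 hyR, mem_iInter₂.2 fun x hx => ?_⟩
    exact (hcon x hx).le
  have h1 := hκS y hyS
  have h2 := min_le_left κ c
  linarith

theorem unit_normal {L : E n →L[ℝ] ℝ} (hL : L ≠ 0) : ∃ (ν : E n) (c : ℝ), ‖ν‖ = 1 ∧ 0 < c ∧
    ∀ v, L v = c * inner ℝ ν v := by
  obtain ⟨w, hw⟩ : ∃ w : E n, w = (InnerProductSpace.toDual ℝ (E n)).symm L := ⟨_, rfl⟩
  have h1 : ∀ v, L v = inner ℝ w v := fun v => by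
    rw [hw, InnerProductSpace.toDual_symm_apply]
  have hw0 : w ≠ 0 := by
    intro h0
    apply hL
    ext v
    rw [h1, h0, inner_zero_left]
    rfl
  have hwn : 0 < ‖w‖ := norm_pos_iff.2 hw0
  refine ⟨‖w‖⁻¹ • w, ‖w‖, ?_, hwn, fun v => ?_⟩
  · rw [norm_smul, norm_inv, norm_norm, inv_mul_cancel₀ hwn.ne']
  · rw [h1, real_inner_smul_left, ← mul_assoc, mul_inv_cancel₀ hwn.ne', one_mul]

theorem normal {h : E n → ℝ} (hh : Dfn h) : ∃ r : ℝ, 0 < r ∧ ∀ x, h x = 0 → ∃ ν : E n, ‖ν‖ = 1 ∧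
    ∀ y, ‖y - x‖ < r → ∀ v, ‖v - ν‖ ≤ 1 / 2 → 0 < fderiv ℝ h y v := by
  obtain ⟨R, c, hc, hR⟩ := hh.far
  have hM : IsCompact {x | h x = 0} := by
    refine (isCompact_closedBall (0 : E n) R).of_isClosed_subset
      (isClosed_eq hh.smooth.continuous continuous_const) fun x hx => ?_
    rw [mem_closedBall_zero_iff]
    by_contra hn
    have h1 := hR x (not_le.1 hn).le
    rw [mem_ofPred_eq] at hx
    linarith
  obtain ⟨r, hr, hcov⟩ := lebesgue_number_lemma_of_metric (ι := {ν : E n // ‖ν‖ = 1})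
    (c := fun ν => interior {y | ∀ v, ‖v - ν.1‖ ≤ 1 / 2 → 0 < fderiv ℝ h y v}) hM
    (fun ν => isOpen_interior) (fun x hx => by
      obtain ⟨ν, m, hν, hm, hL⟩ := unit_normal (hh.regular x hx)
      refine mem_iUnion.2 ⟨⟨ν, hν⟩, ?_⟩
      rw [mem_interior_iff_mem_nhds]
      have hfd : Continuous (fderiv ℝ h) := hh.smooth.continuous_fderiv (by simp)
      have h1 : ∀ᶠ y in 𝓝 x, dist (fderiv ℝ h y) (fderiv ℝ h x) < m / 4 :=
        hfd.continuousAt.eventually (ball_mem_nhds _ (by positivity))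
      filter_upwards [h1] with y hy
      intro v hv
      rw [dist_eq_norm] at hy
      change ‖v - ν‖ ≤ 1 / 2 at hv
      have h2 : ‖v‖ ≤ 3 / 2 := by
        have h3 : v = ν + (v - ν) := by abel
        rw [h3]
        refine (norm_add_le _ _).trans ?_
        rw [hν]
        linarith
      have h4 : 1 / 2 ≤ inner ℝ ν v := by
        have h5 : inner ℝ ν v = inner ℝ ν ν + inner ℝ ν (v - ν) := by
          rw [← inner_add_right]
          congr 1
          abel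
        have h6 := (abs_le.1 (abs_real_inner_le_norm ν (v - ν))).1
        rw [h5, real_inner_self_eq_norm_sq, hν]
        rw [hν, one_mul] at h6
        linarith
      have h7 : |(fderiv ℝ h y - fderiv ℝ h x) v| ≤ m / 4 * (3 / 2) := by
        have h8 := (fderiv ℝ h y - fderiv ℝ h x).le_opNorm v
        rw [Real.norm_eq_abs] at h8
        refine h8.trans (mul_le_mul hy.le h2 (norm_nonneg _) (by positivity))
      have h9 := (abs_le.1 h7).1
      have h10 : (fderiv ℝ h y - fderiv ℝ h x) v = fderiv ℝ h y v - fderiv ℝ h x v := rfl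
      rw [h10, hL v] at h9
      nlinarith)
  refine ⟨r, hr, fun x hx => ?_⟩
  obtain ⟨ν, hν⟩ := hcov x hx
  refine ⟨ν.1, ν.2, fun y hy v hv => ?_⟩
  have h1 := interior_subset (hν (show y ∈ ball x r by rwa [mem_ball, dist_eq_norm]))
  exact h1 v hv

theorem fderiv_prf {ψ : ℝ → ℝ} (hψ : Prf ψ) {h : E n → ℝ} (hh : ContDiff ℝ ∞ h) (N : ℝ)
    (y v : E n) : fderiv ℝ (fun y => ψ (N * h y)) y v =
      deriv ψ (N * h y) * (N * fderiv ℝ h y v) := by
  have h1 : HasFDerivAt h (fderiv ℝ h y) y := ((hh.differentiable (by simp)) y).hasFDerivAt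
  have h2 : HasDerivAt ψ (deriv ψ (N * h y)) (N * h y) :=
    ((hψ.smooth.differentiable (by simp)) _).hasDerivAt
  have h3 : HasFDerivAt (fun y => N * h y) (N • fderiv ℝ h y) y := h1.const_mul N
  have h4 := h2.comp_hasFDerivAt y h3
  have h5 : fderiv ℝ (fun y => ψ (N * h y)) y = deriv ψ (N * h y) • (N • fderiv ℝ h y) :=
    h4.fderiv
  rw [h5]
  rfl

theorem MJ_one {G : E n → ℝ} {p : E n} {c σ : ℝ}
    (h : ∀ s ∈ ball (0 : E n) 1, G (p + c • s) = σ) : MJ G (p, c) = σ := by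
  unfold MJ
  have h1 : ∀ s : E n, kr n s * G (p + c • s) = kr n s * σ := by
    intro s
    by_cases hs : kr n s = 0
    · rw [hs, zero_mul, zero_mul]
    · rw [h s (mem_ball_zero_iff.2 (kr_lt hs))]
  simp only [h1]
  rw [integral_mul_const, kr_int, one_mul]

/-- positivity at small scales -/
theorem small_scale {ψ : ℝ → ℝ} (hψ : Prf ψ) {h : E n → ℝ} (hh : ContDiff ℝ ∞ h) {N : ℝ}
    (hN : 0 < N) {p ν : E n} {c d : ℝ} (hc : 0 ≤ c) (hd : |d| ≤ 1 / 2)
    (hpos : ∀ y, ‖y - p‖ ≤ c → ∀ v, ‖v - ν‖ ≤ 1 / 2 → 0 < fderiv ℝ h y v)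
    (h0 : MJ (fun y => ψ (N * h y)) (p, c) = 0) :
    0 < ∫ s, kr n s * fderiv ℝ (fun y => ψ (N * h y)) (p + c • s) (ν + d • s) := by
  have hG : ContDiff ℝ ∞ fun y => ψ (N * h y) := hψ.smooth.comp (contDiff_const.mul hh)
  have hs1 : ∃ s₁ ∈ ball (0 : E n) 1, |ψ (N * h (p + c • s₁))| < 1 := by
    by_contra hne
    push Not at hne
    have hcs := const_sign (g := fun s : E n => ψ (N * h (p + c • s))) (S := ball 0 1)
      (hG.continuous.comp (by fun_prop : Continuous fun s : E n => p + c • s))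
      (convex_ball _ _).isPreconnected (fun z => hψ.le _) (fun z hz => not_lt.2 (hne z hz))
    rcases hcs with h1 | h1
    · rw [MJ_one h1] at h0
      norm_num at h0
    · rw [MJ_one h1] at h0
      norm_num at h0
  obtain ⟨s₁, hs₁, hlt⟩ := hs1
  have hdn : ∀ s : E n, ‖s‖ ≤ 1 → ‖ν + d • s - ν‖ ≤ 1 / 2 := by
    intro s hs
    rw [add_sub_cancel_left, norm_smul, Real.norm_eq_abs]
    nlinarith [abs_nonneg d, norm_nonneg s]
  have hcn : ∀ s : E n, ‖s‖ ≤ 1 → ‖p + c • s - p‖ ≤ c := by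
    intro s hs
    rw [add_sub_cancel_left, norm_smul, Real.norm_of_nonneg hc]
    nlinarith
  have hfd : Continuous (fderiv ℝ fun y => ψ (N * h y)) := hG.continuous_fderiv (by simp)
  refine Continuous.integral_pos_of_hasCompactSupport_nonneg_nonzero (x := s₁) ?_ ?_ ?_ ?_
  · refine kr_cont.mul ((hfd.comp ?_).clm_apply ?_) <;> fun_prop
  · exact kr_cpt.mul_right
  · intro s
    change 0 ≤ kr n s * fderiv ℝ (fun y => ψ (N * h y)) (p + c • s) (ν + d • s)
    by_cases hs : kr n s = 0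
    · rw [hs, zero_mul]
    · have hs1 := (kr_lt hs).le
      refine mul_nonneg (kr_nonneg s) ?_
      rw [fderiv_prf hψ hh]
      exact mul_nonneg (hψ.dnn _) (mul_nonneg hN.le (hpos _ (hcn s hs1) _ (hdn s hs1)).le)
  · have hs1 : ‖s₁‖ < 1 := mem_ball_zero_iff.1 hs₁
    have hk : 0 < kr n s₁ := by
      have : s₁ ∈ support (kr n) := by rw [kr_support]; exact hs₁
      exact lt_of_le_of_ne (kr_nonneg _) (Ne.symm this)
    have h1 : |N * h (p + c • s₁)| < 1 := by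
      by_contra hn
      rw [not_lt] at hn
      rcases le_abs.1 hn with h2 | h2
      · rw [hψ.one _ h2, abs_one] at hlt
        exact lt_irrefl _ hlt
      · rw [hψ.neg _ (by linarith), abs_neg, abs_one] at hlt
        exact lt_irrefl _ hlt
    rw [fderiv_prf hψ hh]
    exact (mul_pos hk (mul_pos (hψ.dpos _ h1) (mul_pos hN
      (hpos _ (hcn s₁ hs1.le) _ (hdn s₁ hs1.le))))).ne'

end Pool.Agent.K7.H28.GS
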