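import Pool.Agent.TH622.Flow0
import Pool.Agent.Y522.Basic

/-!
# Isotopies of regular level sets
-/

set_option autoImplicit false

open Set Filter Topology Metric Function
open scoped ContDiff NNReal

noncomputable section

namespace Pool.Agent.K7.H28.GS

open Pool.Agent.Y522

variable {n : ℕ}

/-- the partial derivatives -/
def pd (F : E n × ℝ → ℝ) (i : Fin n) (q : E n × ℝ) : ℝ :=
  fderiv ℝ F q (EuclideanSpace.single i 1, 0)

/-- the gradient in the space directions -/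
def grd (F : E n × ℝ → ℝ) (q : E n × ℝ) : E n := ∑ i, pd F i q • EuclideanSpace.single i (1 : ℝ)

/-- its square norm -/
def sq (F : E n × ℝ → ℝ) (q : E n × ℝ) : ℝ := ∑ i, pd F i q * pd F i q

theorem pd_smooth {F : E n × ℝ → ℝ} (hF : ContDiff ℝ ∞ F) (i : Fin n) : ContDiff ℝ ∞ (pd F i) := by
  unfold pd
  exact (hF.fderiv_right (m := ∞) (by simp)).clm_apply contDiff_const

theorem grd_smooth {F : E n × ℝ → ℝ} (hF : ContDiff ℝ ∞ F) : ContDiff ℝ ∞ (grd F) := by
  unfold grd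
  exact ContDiff.sum fun i _ => (pd_smooth hF i).smul contDiff_const

theorem sq_smooth {F : E n × ℝ → ℝ} (hF : ContDiff ℝ ∞ F) : ContDiff ℝ ∞ (sq F) := by
  unfold sq
  exact ContDiff.sum fun i _ => (pd_smooth hF i).mul (pd_smooth hF i)

theorem fderiv_grd (F : E n × ℝ → ℝ) (q : E n × ℝ) : fderiv ℝ F q (grd F q, 0) = sq F q := by
  have h1 : ((grd F q, 0) : E n × ℝ) =
      ∑ i, pd F i q • ((EuclideanSpace.single i (1 : ℝ), 0) : E n × ℝ) := by
    apply Prod.ext
    · simp only [Prod.fst_sum, Prod.smul_fst]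
      rfl
    · simp only [Prod.snd_sum, Prod.smul_snd, smul_zero, Finset.sum_const_zero]
  rw [h1, map_sum]
  unfold sq
  refine Finset.sum_congr rfl fun i _ => ?_
  rw [map_smul, smul_eq_mul]
  rfl

theorem sq_ne {F : E n × ℝ → ℝ} {q : E n × ℝ} {v : E n} (h : fderiv ℝ F q (v, 0) ≠ 0) :
    sq F q ≠ 0 := by
  intro h0
  apply h
  have h1 : ∀ i, pd F i q = 0 := by
    intro i
    unfold sq at h0
    have h2 := (Finset.sum_eq_zero_iff_of_nonneg (fun i _ => mul_self_nonneg (pd F i q))).1 h0 i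
      (Finset.mem_univ i)
    exact mul_self_eq_zero.1 h2
  have h3 : ((v, 0) : E n × ℝ) = ∑ i, v i • ((EuclideanSpace.single i (1 : ℝ), 0) : E n × ℝ) := by
    apply Prod.ext
    · simp only [Prod.fst_sum, Prod.smul_fst]
      have h4 := (EuclideanSpace.basisFun (Fin n) ℝ).sum_repr v
      simp only [EuclideanSpace.basisFun_repr, EuclideanSpace.basisFun_apply] at h4
      exact h4.symm
    · simp only [Prod.snd_sum, Prod.smul_snd, smul_zero, Finset.sum_const_zero]
  rw [h3, map_sum]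
  refine Finset.sum_eq_zero fun i _ => ?_
  rw [map_smul]
  have := h1 i
  unfold pd at this
  rw [this, smul_zero]

/-- a cutoff function -/
theorem exists_cut {V : Type} [NormedAddCommGroup V] [NormedSpace ℝ V] [FiniteDimensional ℝ V]
    {Z U : Set V} (hZ : IsCompact Z) (hU : IsOpen U) (hZU : Z ⊆ U) :
    ∃ χ : V → ℝ, ContDiff ℝ ∞ χ ∧ HasCompactSupport χ ∧ tsupport χ ⊆ U ∧
      ∀ z ∈ Z, ∀ᶠ y in 𝓝 z, χ y = 1 := by
  have hP : ProperSpace V := FiniteDimensional.proper ℝ V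
  obtain ⟨L, hL, hZL, hLU⟩ := exists_compact_between hZ hU hZU
  obtain ⟨L', hL', hZL', hL'L⟩ := exists_compact_between hZ isOpen_interior hZL
  obtain ⟨f, hf1, hf2, hf3, hf4⟩ := exists_contMDiff_support_eq_eq_one_iff
    (I := modelWithCornersSelf ℝ V) (n := ⊤)
    (s := interior L) (t := L') isOpen_interior hL'.isClosed hL'L
  have hts : tsupport f ⊆ L := by
    unfold tsupport
    rw [hf3]
    exact (closure_mono interior_subset).trans hL.isClosed.closure_eq.le
  refine ⟨f, hf1.contDiff, ?_, hts.trans hLU, fun z hz => ?_⟩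
  · exact HasCompactSupport.of_support_subset_isCompact hL ((subset_tsupport f).trans hts)
  · filter_upwards [isOpen_interior.mem_nhds (hZL' hz)] with y hy
    exact (hf4 y).1 (interior_subset hy)

/-- dividing a cutoff function -/
theorem cut_div {V : Type} [NormedAddCommGroup V] [NormedSpace ℝ V] {χ S : V → ℝ}
    (hχ : ContDiff ℝ ∞ χ) (hS : ContDiff ℝ ∞ S) (h : tsupport χ ⊆ {q | S q ≠ 0}) :
    ContDiff ℝ ∞ fun q => χ q * (S q)⁻¹ := by
  rw [contDiff_iff_contDiffAt]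
  intro q
  by_cases hq : q ∈ tsupport χ
  · exact hχ.contDiffAt.mul (hS.contDiffAt.inv (h hq))
  · have h1 : ∀ᶠ y in 𝓝 q, χ y = 0 := notMem_tsupport_iff_eventuallyEq.1 hq
    have h2 : (fun y => χ y * (S y)⁻¹) =ᶠ[𝓝 q] fun _ => 0 := by
      filter_upwards [h1] with y hy
      rw [hy, zero_mul]
    exact contDiffAt_const.congr_of_eventuallyEq h2

theorem level_iso (F : E n × ℝ → ℝ) (hF : ContDiff ℝ ∞ F) (K : Set (E n)) (hK : IsCompact K)
    (hK' : ∀ x t, 0 ≤ t → t ≤ 1 → x ∉ K → F (x, t) ≠ 0)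
    (hreg : ∀ x t, 0 ≤ t → t ≤ 1 → F (x, t) = 0 → ∃ v : E n, fderiv ℝ F (x, t) (v, 0) ≠ 0) :
    ∃ Φ Ψ : E n → E n, ContDiff ℝ ∞ Φ ∧ ContDiff ℝ ∞ Ψ ∧ (∀ x, Ψ (Φ x) = x) ∧
      (∀ x, Φ (Ψ x) = x) ∧ (∃ R : ℝ, ∀ x, R ≤ ‖x‖ → Φ x = x) ∧
      ∀ x, (0 < F (Φ x, 1) ↔ 0 < F (x, 0)) ∧ (F (Φ x, 1) < 0 ↔ F (x, 0) < 0) := by
  obtain ⟨Z, hZd⟩ : ∃ Z : Set (E n × ℝ), Z = (K ×ˢ Icc 0 1) ∩ {q | F q = 0} := ⟨_, rfl⟩
  have hZc : IsCompact Z := by
    rw [hZd]
    exact (hK.prod isCompact_Icc).inter_right (isClosed_eq hF.continuous continuous_const)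
  have hZm : ∀ x t, 0 ≤ t → t ≤ 1 → F (x, t) = 0 → (x, t) ∈ Z := by
    intro x t h0 h1 h2
    rw [hZd]
    refine ⟨⟨?_, h0, h1⟩, h2⟩
    by_contra hx
    exact hK' x t h0 h1 hx h2
  have hU : IsOpen {q | sq F q ≠ 0} := isOpen_ne_fun (sq_smooth hF).continuous continuous_const
  have hZU : Z ⊆ {q | sq F q ≠ 0} := by
    rintro ⟨x, t⟩ hq
    rw [hZd] at hq
    obtain ⟨v, hv⟩ := hreg x t hq.1.2.1 hq.1.2.2 hq.2
    exact sq_ne hv
  obtain ⟨χ, hχ1, hχ2, hχ3, hχ4⟩ := exists_cut hZc hU hZU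
  obtain ⟨m, hmd⟩ : ∃ m : E n × ℝ → ℝ, m = fun q =>
    -(fderiv ℝ F q ((0 : E n), (1 : ℝ))) * (χ q * (sq F q)⁻¹) := ⟨_, rfl⟩
  have hm : ContDiff ℝ ∞ m := by
    rw [hmd]
    exact ((hF.fderiv_right (m := ∞) (by simp)).clm_apply contDiff_const).neg.mul
      (cut_div hχ1 (sq_smooth hF) hχ3)
  obtain ⟨V, hVd⟩ : ∃ V : E n × ℝ → E n, V = fun q => m q • grd F q := ⟨_, rfl⟩
  have hV : ContDiff ℝ ∞ V := by
    rw [hVd]
    exact hm.smul (grd_smooth hF)
  have hVs : HasCompactSupport V := by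
    refine hχ2.mono' ?_
    intro q hq
    refine subset_tsupport χ ?_
    intro h0
    apply hq
    rw [hVd, hmd]
    simp only [h0, zero_mul, mul_zero, zero_smul]
  obtain ⟨X, hXd⟩ : ∃ X : E n × ℝ → E n × ℝ, X = fun q => (V q, 1) := ⟨_, rfl⟩
  have hX : ContDiff ℝ ∞ X := by
    rw [hXd]
    exact hV.prodMk contDiff_const
  obtain ⟨C, hC⟩ := (hV.of_le (by simp : (1 : WithTop ℕ∞) ≤ ∞)).lipschitzWith_of_hasCompactSupport
    hVs one_ne_zero
  have hXL : LipschitzWith C X := by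
    rw [hXd]
    refine LipschitzWith.of_dist_le_mul fun p q => ?_
    rw [Prod.dist_eq, dist_self]
    exact max_le (hC.dist_le_mul p q) (by positivity)
  obtain ⟨g, hg⟩ := Pool.Agent.TH622.exists_flow hX hXL
  have hgs : ContDiff ℝ ∞ (fun p : ℝ × (E n × ℝ) => g p.1 p.2) := by
    rw [contDiff_infty]
    intro k
    have h1 := Pool.Agent.GR.Flow.contDiff_flow (X := ⟨X, hX.continuous⟩) (m := k + 1)
      (Nat.succ_ne_zero k) (hX.of_le (by exact_mod_cast le_top)) hXL hg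
    exact h1.of_le (by exact_mod_cast Nat.le_succ k)
  -- the second component
  have hsnd : ∀ (q : E n × ℝ) (t : ℝ), (g t q).2 = q.2 + t := by
    intro q t
    have h1 : ∀ s, HasDerivAt (fun s => (g s q).2 - s) 0 s := by
      intro s
      have h2 := (hg.deriv q s)
      have h3 : HasDerivAt (fun s => (g s q).2) (X (g s q)).2 s := by
        have := (ContinuousLinearMap.snd ℝ (E n) ℝ).hasFDerivAt.comp_hasDerivAt s h2
        exact this
      have h4 := h3.sub (hasDerivAt_id s)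
      rw [hXd] at h4
      exact h4.congr_deriv (by simp)
    have h5 : (g t q).2 - t = (g 0 q).2 - 0 :=
      is_const_of_deriv_eq_zero (fun s => (h1 s).differentiableAt) (fun s => (h1 s).deriv) t 0
    rw [hg.zero] at h5
    linarith
  have hpair : ∀ (q : E n × ℝ) (t : ℝ), g t q = ((g t q).1, q.2 + t) := fun q t =>
    Prod.ext rfl (hsnd q t)
  refine ⟨fun x => (g 1 (x, 0)).1, fun x => (g (-1) (x, 1)).1, ?_, ?_, ?_, ?_, ?_, ?_⟩
  · have h1 : ContDiff ℝ ∞ fun x : E n => ((1 : ℝ), (x, (0 : ℝ))) := by fun_prop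
    exact contDiff_fst.comp (hgs.comp h1)
  · have h1 : ContDiff ℝ ∞ fun x : E n => ((-1 : ℝ), (x, (1 : ℝ))) := by fun_prop
    exact contDiff_fst.comp (hgs.comp h1)
  · intro x
    change (g (-1) ((g 1 (x, 0)).1, 1)).1 = x
    have h1 : ((g 1 (x, 0)).1, (1 : ℝ)) = g 1 (x, 0) := by
      have := hpair (x, 0) 1
      simp only [zero_add] at this
      exact this.symm
    rw [h1, ← hg.add hXL, neg_add_cancel, hg.zero]
  · intro x
    change (g 1 ((g (-1) (x, 1)).1, 0)).1 = x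
    have h1 : ((g (-1) (x, 1)).1, (0 : ℝ)) = g (-1) (x, 1) := by
      have := hpair (x, 1) (-1)
      simp only [add_neg_cancel] at this
      exact this.symm
    rw [h1, ← hg.add hXL, add_neg_cancel, hg.zero]
  · obtain ⟨R, hR⟩ := hχ2.isCompact.isBounded.subset_closedBall (0 : E n × ℝ)
    refine ⟨max R 0 + 1, fun x hx => ?_⟩
    have hV0 : ∀ t : ℝ, V (x, t) = 0 := by
      intro t
      have h1 : (x, t) ∉ tsupport χ := by
        intro h
        have h2 := hR h
        rw [mem_closedBall_zero_iff, Prod.norm_def] at h2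
        have h3 : ‖x‖ ≤ R := (le_max_left _ _).trans h2
        linarith [le_max_left R 0]
      have h2 : χ (x, t) = 0 := image_eq_zero_of_notMem_tsupport h1
      rw [hVd, hmd]
      simp only [h2, zero_mul, mul_zero, zero_smul]
    have h1 : (fun t : ℝ => g t (x, (0 : ℝ))) = fun t => (x, t) := by
      refine ODE_solution_unique_univ (v := fun _ => X) (s := fun _ => univ) (K := C) (t₀ := 0)
        (fun t => hXL.lipschitzOnWith) (fun t => ⟨hg.deriv _ t, trivial⟩) (fun t => ⟨?_, trivial⟩) ?_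
      · rw [hXd]
        simp only [hV0]
        exact (hasDerivAt_const t x).prodMk (hasDerivAt_id t)
      · rw [hg.zero]
    have h2 := congrFun h1 1
    simp only at h2 ⊢
    rw [h2]
  · -- the sign
    intro x
    obtain ⟨a, had⟩ : ∃ a : ℝ → ℝ, a = fun t => F (g t (x, 0)) := ⟨_, rfl⟩
    have hder : ∀ t, HasDerivAt a (fderiv ℝ F (g t (x, 0)) (X (g t (x, 0)))) t := by
      intro t
      rw [had]
      have h1 : HasFDerivAt F (fderiv ℝ F (g t (x, 0))) (g t (x, 0)) :=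
        ((hF.differentiable (by simp)) _).hasFDerivAt
      exact h1.comp_hasDerivAt t (hg.deriv (x, 0) t)
    have hac : Continuous a := continuous_iff_continuousAt.2 fun t => (hder t).continuousAt
    have hX0 : ∀ q : E n × ℝ, χ q = 1 → sq F q ≠ 0 → fderiv ℝ F q (X q) = 0 := by
      intro q hq hs
      have h1 : X q = (V q, 0) + (0, 1) := by rw [hXd]; simp
      rw [h1, map_add, hVd, hmd]
      simp only [hq, one_mul]
      have h2 : (((-(fderiv ℝ F q ((0 : E n), (1 : ℝ))) * (sq F q)⁻¹) • grd F q, 0) : E n × ℝ) =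
          (-(fderiv ℝ F q ((0 : E n), (1 : ℝ))) * (sq F q)⁻¹) • ((grd F q, 0) : E n × ℝ) := by
        rw [Prod.smul_mk, smul_zero]
      rw [h2, map_smul, fderiv_grd, smul_eq_mul, mul_assoc, inv_mul_cancel₀ hs]
      ring
    have hloc : ∀ t, 0 ≤ t → t ≤ 1 → a t = 0 → ∀ᶠ s in 𝓝 t, a s = 0 := by
      intro t h0 h1 hat
      have hz : g t (x, 0) ∈ Z := by
        have h2 := hpair (x, 0) t
        rw [zero_add] at h2
        rw [h2]
        refine hZm _ _ h0 h1 ?_
        rw [← h2]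
        rw [had] at hat
        exact hat
      have hgc : Continuous fun s : ℝ => g s (x, (0 : ℝ)) := hg.continuous _
      have h2 : ∀ᶠ s in 𝓝 t, χ (g s (x, 0)) = 1 := hgc.continuousAt.eventually (hχ4 _ hz)
      have h3 : ∀ᶠ s in 𝓝 t, sq F (g s (x, 0)) ≠ 0 :=
        hgc.continuousAt.eventually (hU.mem_nhds (hZU hz))
      obtain ⟨ε, hε, hb⟩ := Metric.eventually_nhds_iff_ball.1 (h2.and h3)
      refine Metric.eventually_nhds_iff_ball.2 ⟨ε, hε, fun s hs => ?_⟩
      have h4 : ∀ r ∈ ball t ε, HasDerivWithinAt a 0 (ball t ε) r := by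
        intro r hr
        have h5 := hder r
        rw [hX0 _ (hb r hr).1 (hb r hr).2] at h5
        exact h5.hasDerivWithinAt
      have h6 := (convex_ball t ε).is_const_of_fderivWithin_eq_zero (𝕜 := ℝ) (f := a)
        (fun r hr => (h4 r hr).differentiableWithinAt) (fun r hr => by
          have h7 := (h4 r hr).hasFDerivWithinAt.fderivWithin
            (isOpen_ball.uniqueDiffWithinAt hr)
          rw [h7]
          ext
          simp) hs (mem_ball_self hε)
      rw [h6, hat]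
    have hclo : ∀ t, 0 ≤ t → t ≤ 1 → a t = 0 → ∀ s, 0 ≤ s → s ≤ 1 → a s = 0 := by
      intro t h0 h1 hat
      have hpre : IsPreconnected (Icc (0 : ℝ) 1) := isPreconnected_Icc
      by_contra hne
      push Not at hne
      obtain ⟨s, hs0, hs1, hs⟩ := hne
      have hO1 : IsOpen {r | ∀ᶠ y in 𝓝 r, a y = 0} := isOpen_setOfPred_eventually_nhds
      have hO2 : IsOpen {r | a r ≠ 0} := isOpen_ne_fun hac continuous_const
      obtain ⟨r, _, hr1, hr2⟩ := hpre _ _ hO1 hO2 (fun r hr => by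
        by_cases h : a r = 0
        · exact Or.inl (hloc r hr.1 hr.2 h)
        · exact Or.inr h) ⟨t, ⟨h0, h1⟩, hloc t h0 h1 hat⟩ ⟨s, ⟨hs0, hs1⟩, hs⟩
      exact hr2 hr1.self_of_nhds
    have ha0 : a 0 = F (x, 0) := by rw [had]; simp only [hg.zero]
    have ha1 : a 1 = F ((g 1 (x, 0)).1, 1) := by
      rw [had]
      have h2 := hpair (x, 0) 1
      rw [zero_add] at h2
      simp only
      rw [← h2]
    rw [← ha0, ← ha1]
    by_cases hz : a 0 = 0
    · have h1 := hclo 0 le_rfl zero_le_one hz 1 zero_le_one le_rfl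
      rw [hz, h1]
      exact ⟨Iff.rfl, Iff.rfl⟩
    · have hnz : ∀ s, 0 ≤ s → s ≤ 1 → a s ≠ 0 := fun s h0 h1 h2 =>
        hz (hclo s h0 h1 h2 0 le_rfl zero_le_one)
      have hsg : ∀ s, 0 ≤ s → s ≤ 1 → ∀ s', 0 ≤ s' → s' ≤ 1 → 0 < a s → 0 < a s' := by
        intro s h0 h1 s' h0' h1' hs
        by_contra hn
        have hn' : a s' < 0 := lt_of_le_of_ne (not_lt.1 hn) (hnz s' h0' h1')
        obtain ⟨r, hr, hr0⟩ := isPreconnected_Icc.intermediate_value (s := Icc (0 : ℝ) 1)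
          ⟨h0', h1'⟩ ⟨h0, h1⟩ hac.continuousOn ⟨hn'.le, hs.le⟩
        exact hnz r hr.1 hr.2 hr0
      have e1 : 0 < a 1 ↔ 0 < a 0 := ⟨hsg 1 zero_le_one le_rfl 0 le_rfl zero_le_one,
        hsg 0 le_rfl zero_le_one 1 zero_le_one le_rfl⟩
      have n0 := hnz 0 le_rfl zero_le_one
      have n1 := hnz 1 zero_le_one le_rfl
      refine ⟨e1, ?_⟩
      constructor
      · intro h
        rcases lt_or_gt_of_ne n0 with h' | h'
        · exact h'
        · exact absurd (e1.2 h') (not_lt.2 h.le)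
      · intro h
        rcases lt_or_gt_of_ne n1 with h' | h'
        · exact h'
        · exact absurd (e1.1 h') (not_lt.2 h.le)

end Pool.Agent.K7.H28.GS
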