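import Pool.Agent.K7.H28.GS.L9

/-!
# The type of a hypersurface is determined by its signs on a net
-/

set_option autoImplicit false

open Set Filter Topology Metric Function MeasureTheory
open scoped ContDiff NNReal

noncomputable section

namespace Pool.Agent.K7.H28.GS

open Pool.Agent.Y522

variable {n : ℕ}

/-- a continuous function without zeros on a ball has a constant sign -/
theorem sign_ball {k : E n → ℝ} (hk : Continuous k) {y : E n} {δ : ℝ}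
    (h0 : ∀ x, ‖x - y‖ ≤ δ → k x ≠ 0) {g : E n} (hg : ‖g - y‖ ≤ δ) (hδ : 0 ≤ δ) :
    (0 < k y → 0 < k g) ∧ (k y < 0 → k g < 0) := by
  have hpre : IsPreconnected (closedBall y δ) := (convex_closedBall y δ).isPreconnected
  have hgm : g ∈ closedBall y δ := by rwa [mem_closedBall, dist_eq_norm]
  have hym : y ∈ closedBall y δ := mem_closedBall_self hδ
  have hz : ∀ z ∈ closedBall y δ, k z ≠ 0 := fun z hz =>
    h0 z (by rwa [mem_closedBall, dist_eq_norm] at hz)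
  constructor
  · intro hy
    by_contra hn
    obtain ⟨z, hz1, hz2⟩ := hpre.intermediate_value hgm hym hk.continuousOn
      (show (0 : ℝ) ∈ Icc (k g) (k y) from ⟨not_lt.1 hn, hy.le⟩)
    exact hz z hz1 hz2
  · intro hy
    by_contra hn
    obtain ⟨z, hz1, hz2⟩ := hpre.intermediate_value hym hgm hk.continuousOn
      (show (0 : ℝ) ∈ Icc (k y) (k g) from ⟨hy.le, not_lt.1 hn⟩)
    exact hz z hz1 hz2

/-- a point of the net with positive sign near every point of `k ≥ 0`, a point with non-positive sign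
near every point of `k ≤ 0` -/
theorem net_point {θ ε κ : ℝ} (hθ : 0 < θ) (hθ1 : θ ≤ 1) (hε : 0 ≤ ε) (hε1 : ε ≤ 1 / 2)
    (hκ : 0 < κ) (hκ1 : κ ≤ θ / 8) {k ρ : E n → ℝ} (hk : Dfn k) (hρ : Scl ε ρ)
    (hC : ∀ x, k x = 0 → ∀ r, 0 < r → r ≤ ρ x → ∃ ν : E n, ‖ν‖ = 1 ∧ Crs θ ε k x r ν)
    {T : Set (E n)} (hT : ∀ y, ∃ g ∈ T, ‖g - y‖ ≤ κ * ρ y) (y : E n) :
    (0 ≤ k y → ∃ g ∈ T, 0 < k g ∧ ‖g - y‖ ≤ 6 * κ / θ * ρ y) ∧
      (k y ≤ 0 → ∃ g ∈ T, ¬ 0 < k g ∧ ‖g - y‖ ≤ 6 * κ / θ * ρ y) := by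
  have hρy := hρ.pos y
  obtain ⟨δ, hδd⟩ : ∃ δ : ℝ, δ = 2 * κ * ρ y := ⟨_, rfl⟩
  have hδ0 : 0 < δ := by rw [hδd]; positivity
  obtain ⟨τ, hτd⟩ : ∃ τ : ℝ, τ = δ / θ := ⟨_, rfl⟩
  have hτ0 : 0 < τ := by rw [hτd]; positivity
  have hθτ : θ * τ = δ := by rw [hτd]; field_simp
  have hδτ : δ ≤ τ := by rw [← hθτ]; nlinarith
  have hC6 : 3 * τ = 6 * κ / θ * ρ y := by
    rw [hτd, hδd]
    field_simp
    ring
  have hτρ : 4 * τ ≤ ρ y := by
    rw [hτd, hδd]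
    rw [mul_div_assoc', div_le_iff₀ hθ]
    nlinarith
  have hδρ : 4 * δ ≤ ρ y := by linarith
  -- the scale near `y`
  have hnear : ∀ z, ‖z - y‖ ≤ ρ y → ρ z ≤ 2 * ρ y := by
    intro z hz
    have h1 := (abs_le.1 (hρ.lip z y)).2
    have h2 : ε * ‖z - y‖ ≤ 1 * ρ y := mul_le_mul (by linarith) hz (norm_nonneg _) zero_le_one
    linarith
  have hnet : ∀ z, ‖z - y‖ ≤ ρ y → ∃ g ∈ T, ‖g - z‖ ≤ δ := by
    intro z hz
    obtain ⟨g, hg, hgz⟩ := hT z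
    refine ⟨g, hg, hgz.trans ?_⟩
    rw [hδd]
    have := mul_le_mul_of_nonneg_left (hnear z hz) hκ.le
    linarith
  obtain ⟨g₀, hg₀, hg₀y⟩ := hnet y (by rw [sub_self, norm_zero]; exact hρy.le)
  by_cases hz : ∀ x, ‖x - y‖ ≤ δ → k x ≠ 0
  · have hs := sign_ball hk.smooth.continuous hz hg₀y hδ0.le
    have hyk : k y ≠ 0 := hz y (by rw [sub_self, norm_zero]; exact hδ0.le)
    have hd : ‖g₀ - y‖ ≤ 6 * κ / θ * ρ y := by
      rw [← hC6]
      linarith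
    refine ⟨fun hy => ⟨g₀, hg₀, hs.1 (lt_of_le_of_ne hy hyk.symm), hd⟩, fun hy => ⟨g₀, hg₀, ?_, hd⟩⟩
    exact not_lt.2 (hs.2 (lt_of_le_of_ne hy hyk)).le
  · push Not at hz
    obtain ⟨x, hx, hx0⟩ := hz
    have hρx : ρ y / 2 ≤ ρ x := by
      have h1 := (abs_le.1 (hρ.lip x y)).1
      have h2 : ε * ‖x - y‖ ≤ 1 / 2 * δ := mul_le_mul hε1 hx (norm_nonneg _) (by norm_num)
      linarith
    obtain ⟨ν, hν, hcr⟩ := hC x hx0 (2 * τ) (by positivity) (by linarith)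
    have hετ : ε * (2 * τ) ≤ τ := by nlinarith
    have hcn : ∀ s : ℝ, |s| = 1 → ‖x + (s * τ) • ν - y‖ ≤ ρ y := by
      intro s hs
      have e : x + (s * τ) • ν - y = (x - y) + (s * τ) • ν := by abel
      rw [e]
      refine (norm_add_le _ _).trans ?_
      rw [norm_smul, hν, mul_one, Real.norm_eq_abs, abs_mul, hs, one_mul, abs_of_pos hτ0]
      linarith
    constructor
    · intro _
      obtain ⟨g, hg, hgc⟩ := hnet (x + (1 * τ) • ν) (hcn 1 (by norm_num))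
      rw [one_mul] at hgc
      have hgx : ‖g - x‖ ≤ 2 * τ := by
        have e : g - x = (g - (x + τ • ν)) + τ • ν := by abel
        rw [e]
        refine (norm_add_le _ _).trans ?_
        rw [norm_smul, hν, mul_one, Real.norm_of_nonneg hτ0.le]
        linarith
      refine ⟨g, hg, ?_, ?_⟩
      · refine hcr x g τ (by rw [sub_self, norm_zero]; positivity) hgx hετ ?_ hx0.ge
        have e : g - x - τ • ν = g - (x + τ • ν) := by abel
        rw [e, hθτ]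
        exact hgc
      · rw [← hC6]
        have e : g - y = (g - x) + (x - y) := by abel
        rw [e]
        refine (norm_add_le _ _).trans ?_
        linarith
    · intro _
      obtain ⟨g, hg, hgc⟩ := hnet (x + (-1 * τ) • ν) (hcn (-1) (by norm_num))
      have e0 : x + (-1 * τ) • ν = x - τ • ν := by
        rw [neg_one_mul, neg_smul, sub_eq_add_neg]
      rw [e0] at hgc
      have hgx : ‖g - x‖ ≤ 2 * τ := by
        have e : g - x = (g - (x - τ • ν)) - τ • ν := by abel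
        rw [e]
        refine (norm_sub_le _ _).trans ?_
        rw [norm_smul, hν, mul_one, Real.norm_of_nonneg hτ0.le]
        linarith
      refine ⟨g, hg, fun hpos => ?_, ?_⟩
      · have h1 := hcr g x τ hgx (by rw [sub_self, norm_zero]; positivity) hετ (by
          have e : x - g - τ • ν = -(g - (x - τ • ν)) := by abel
          rw [e, norm_neg, hθτ]
          exact hgc) hpos.le
        rw [hx0] at h1
        exact lt_irrefl _ h1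
      · rw [← hC6]
        have e : g - y = (g - x) + (x - y) := by abel
        rw [e]
        refine (norm_add_le _ _).trans ?_
        linarith

/-- transfer of the cone condition -/
theorem transfer {θ ε ε₁ κ : ℝ} (hθ : 0 < θ) (hθ1 : θ ≤ 1) (hε : 0 ≤ ε) (hε1 : ε ≤ 1 / 2)
    (hε₁ : 0 < ε₁) (hε₁1 : ε₁ ≤ 1) (hεε : 2 * ε ≤ ε₁)
    (hκ : 0 < κ) (hκ1 : κ ≤ θ / 8) (hκ2 : 96 * κ ≤ θ * θ * ε₁) {h k ρ : E n → ℝ} (hk : Dfn k)
    (hρ : Scl ε ρ)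
    (hC : ∀ x, k x = 0 → ∀ r, 0 < r → r ≤ ρ x → ∃ ν : E n, ‖ν‖ = 1 ∧ Crs θ ε k x r ν)
    {T : Set (E n)} (hT : ∀ y, ∃ g ∈ T, ‖g - y‖ ≤ κ * ρ y)
    (hs : ∀ g ∈ T, 0 < h g ↔ 0 < k g) {x ν : E n} (hcr : Crs θ ε h x (ρ x) ν) :
    Crs (θ / 2) ε₁ h x (ρ x / 2) ν ∧ Crs (θ / 2) ε₁ k x (ρ x / 2) ν := by
  have hρx := hρ.pos x
  constructor
  · intro y y' τ hy hy' hτ hd h0
    have hτ0 : 0 ≤ τ := le_trans (by positivity) hτ
    refine hcr y y' τ (by linarith) (by linarith) (by nlinarith) (hd.trans ?_) h0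
    exact mul_le_mul_of_nonneg_right (by linarith) hτ0
  · intro y y' τ hy hy' hτ hd h0
    have hτ0 : 0 ≤ τ := le_trans (by positivity) hτ
    by_contra hn
    have hρn : ∀ z : E n, ‖z - x‖ ≤ ρ x / 2 → ρ z ≤ 2 * ρ x := by
      intro z hz
      have h1 := (abs_le.1 (hρ.lip z x)).2
      have h2 : ε * ‖z - x‖ ≤ 1 / 2 * (ρ x / 2) := mul_le_mul hε1 hz (norm_nonneg _) (by norm_num)
      linarith
    obtain ⟨g, hg, hg1, hg2⟩ := (net_point hθ hθ1 hε hε1 hκ hκ1 hk hρ hC hT y).1 h0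
    obtain ⟨g', hg', hg1', hg2'⟩ := (net_point hθ hθ1 hε hε1 hκ hκ1 hk hρ hC hT y').2 (not_lt.1 hn)
    have hq : 6 * κ / θ * (2 * ρ x) ≤ θ * ε₁ / 8 * ρ x := by
      have e : 6 * κ / θ * (2 * ρ x) = 12 * κ / θ * ρ x := by ring
      rw [e]
      refine mul_le_mul_of_nonneg_right ?_ hρx.le
      rw [div_le_iff₀ hθ]
      nlinarith
    have hq0 : 0 ≤ 6 * κ / θ := by positivity
    have hgy : ‖g - y‖ ≤ θ * ε₁ / 8 * ρ x :=
      hg2.trans ((mul_le_mul_of_nonneg_left (hρn y hy) hq0).trans hq)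
    have hgy' : ‖g' - y'‖ ≤ θ * ε₁ / 8 * ρ x :=
      hg2'.trans ((mul_le_mul_of_nonneg_left (hρn y' hy') hq0).trans hq)
    have hsm : θ * ε₁ / 8 * ρ x ≤ ρ x / 8 := by
      have e1 : θ * ε₁ ≤ 1 := by nlinarith
      nlinarith
    have hgx : ‖g - x‖ ≤ ρ x := by
      have e : g - x = (g - y) + (y - x) := by abel
      rw [e]
      refine (norm_add_le _ _).trans ?_
      linarith
    have hgx' : ‖g' - x‖ ≤ ρ x := by
      have e : g' - x = (g' - y') + (y' - x) := by abel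
      rw [e]
      refine (norm_add_le _ _).trans ?_
      linarith
    have h3 : 0 < h g := (hs g hg).2 hg1
    have h4 : ¬ 0 < h g' := fun hp => hg1' ((hs g' hg').1 hp)
    apply h4
    refine hcr g g' τ hgx hgx' (by nlinarith) ?_ h3.le
    have e : g' - g - τ • ν = (g' - y') - (g - y) + (y' - y - τ • ν) := by abel
    rw [e]
    have e1 := norm_add_le ((g' - y') - (g - y)) (y' - y - τ • ν)
    have e2 := norm_sub_le (g' - y') (g - y)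
    have e3 : θ * (ε₁ * (ρ x / 2)) ≤ θ * τ := mul_le_mul_of_nonneg_left hτ hθ.le
    nlinarith

/-- **recognition** -/
theorem recognition (n : ℕ) (θ : ℝ) (hθ : 0 < θ) (hθ1 : θ ≤ 1) : ∃ ε κ : ℝ, 0 < ε ∧ 0 < κ ∧
    ∀ h k ρ : E n → ℝ, Dfn h → Dfn k → Scl ε ρ →
      (∀ x, h x = 0 → ∀ r, 0 < r → r ≤ ρ x → ∃ ν : E n, ‖ν‖ = 1 ∧ Crs θ ε h x r ν) →
      (∀ x, k x = 0 → ∀ r, 0 < r → r ≤ ρ x → ∃ ν : E n, ‖ν‖ = 1 ∧ Crs θ ε k x r ν) →
      ∀ T : Set (E n), (∀ y, ∃ g ∈ T, ‖g - y‖ ≤ κ * ρ y) → (∀ g ∈ T, 0 < h g ↔ 0 < k g) →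
      ∃ Φ Ψ : E n → E n, Cpt Φ Ψ ∧ ∀ x, (0 < k (Φ x) ↔ 0 < h x) ∧ (k (Φ x) < 0 ↔ h x < 0) := by
  obtain ⟨ε₀, hε₀, key⟩ := main n (θ / 2) (by positivity) (by linarith)
  obtain ⟨ε₁, hε₁d⟩ : ∃ ε₁ : ℝ, ε₁ = min ε₀ 1 := ⟨_, rfl⟩
  have hε₁ : 0 < ε₁ := by rw [hε₁d]; exact lt_min hε₀ one_pos
  have hε₁1 : ε₁ ≤ 1 := by rw [hε₁d]; exact min_le_right _ _
  have hε₁0 : ε₁ ≤ ε₀ := by rw [hε₁d]; exact min_le_left _ _
  have hκ0 : 0 < θ * θ * ε₁ / 96 := by positivity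
  have hθθ : θ * θ * ε₁ ≤ θ := by
    have : θ * θ * ε₁ ≤ θ * 1 * 1 := by gcongr
    linarith
  refine ⟨ε₁ / 2, θ * θ * ε₁ / 96, by positivity, hκ0, ?_⟩
  intro h k ρ hh hk hρ hC1 hC2 T hT hs
  have hε : 0 ≤ ε₁ / 2 := by positivity
  have hε1 : ε₁ / 2 ≤ 1 / 2 := by linarith
  have hρ2 : Scl ε₀ fun x => ρ x / 2 := by
    refine ⟨hρ.smooth.div_const _, fun x => by have := hρ.pos x; positivity, fun x => ?_⟩
    have h1 : HasFDerivAt ρ (fderiv ℝ ρ x) x :=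
      ((hρ.smooth.differentiable (by simp)) x).hasFDerivAt
    have h2 : HasFDerivAt (fun x => ρ x / 2) ((2 : ℝ)⁻¹ • fderiv ℝ ρ x) x := by
      have h3 := h1.const_mul (2 : ℝ)⁻¹
      refine h3.congr_of_eventuallyEq (Eventually.of_forall fun y => ?_)
      ring
    rw [h2.fderiv, norm_smul, Real.norm_of_nonneg (by norm_num)]
    have h3 := hρ.slow x
    linarith
  have weak : ∀ h : E n → ℝ,
      (∀ x, h x = 0 → ∀ r, 0 < r → r ≤ ρ x → ∃ ν : E n, ‖ν‖ = 1 ∧ Crs θ (ε₁ / 2) h x r ν) →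
      ∀ x, h x = 0 → ∀ r, 0 < r → r ≤ ρ x / 2 → ∃ ν : E n, ‖ν‖ = 1 ∧ Crs (θ / 2) ε₀ h x r ν := by
    intro h hC x hx r hr hr'
    obtain ⟨ν, hν, hc⟩ := hC x hx r hr (by linarith [hρ.pos x])
    refine ⟨ν, hν, fun y y' τ hy hy' hτ hd h0 => ?_⟩
    have hτ0 : 0 ≤ τ := le_trans (mul_nonneg hε₀.le hr.le) hτ
    refine hc y y' τ hy hy' ?_ (hd.trans (mul_le_mul_of_nonneg_right (by linarith) hτ0)) h0
    have : ε₁ / 2 * r ≤ ε₀ * r := mul_le_mul_of_nonneg_right (by linarith) hr.le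
    linarith
  have up : ∀ (h : E n → ℝ) (x ν : E n), Crs (θ / 2) ε₁ h x (ρ x / 2) ν →
      Crs (θ / 2) ε₀ h x (ρ x / 2) ν := by
    intro h x ν hc y y' τ hy hy' hτ hd h0
    refine hc y y' τ hy hy' (le_trans ?_ hτ) hd h0
    have := hρ.pos x
    exact mul_le_mul_of_nonneg_right hε₁0 (by positivity)
  refine key h k (fun x => ρ x / 2) hh hk hρ2 (weak h hC1) (weak k hC2) (fun x hx => ?_)
    (fun y hy => ?_)
  · rcases mul_eq_zero.1 hx with hx | hx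
    · obtain ⟨ν, hν, hc⟩ := hC1 x hx (ρ x) (hρ.pos x) le_rfl
      obtain ⟨h1, h2⟩ := transfer hθ hθ1 hε hε1 hε₁ hε₁1 (by linarith) hκ0 (by linarith)
        (by linarith) hk hρ hC2 hT hs hc
      exact ⟨ν, hν, up h x ν h1, up k x ν h2⟩
    · obtain ⟨ν, hν, hc⟩ := hC2 x hx (ρ x) (hρ.pos x) le_rfl
      obtain ⟨h1, h2⟩ := transfer hθ hθ1 hε hε1 hε₁ hε₁1 (by linarith) hκ0 (by linarith)
        (by linarith) hh hρ hC1 hT (fun g hg => (hs g hg).symm) hc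
      exact ⟨ν, hν, up h x ν h2, up k x ν h1⟩
  · by_contra hno
    push Not at hno
    have hρy := hρ.pos y
    have hδ : 0 ≤ θ * θ * ε₁ / 96 * ρ y := by positivity
    have hle : θ * θ * ε₁ / 96 * ρ y ≤ ρ y / 2 / 32 := by nlinarith
    have hz1 : ∀ x, ‖x - y‖ ≤ θ * θ * ε₁ / 96 * ρ y → h x ≠ 0 := by
      intro x hx h0
      have h1 := hno x (by rw [h0, zero_mul])
      linarith
    have hz2 : ∀ x, ‖x - y‖ ≤ θ * θ * ε₁ / 96 * ρ y → k x ≠ 0 := by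
      intro x hx h0
      have h1 := hno x (by rw [h0, mul_zero])
      linarith
    obtain ⟨g, hg, hgy⟩ := hT y
    have s1 := sign_ball hh.smooth.continuous hz1 hgy hδ
    have s2 := sign_ball hk.smooth.continuous hz2 hgy hδ
    rcases mul_neg_iff.1 hy with ⟨a, b⟩ | ⟨a, b⟩
    · have h1 := (hs g hg).1 (s1.1 a)
      exact lt_asymm h1 (s2.2 b)
    · have h1 := (hs g hg).2 (s2.1 b)
      exact lt_asymm h1 (s1.2 a)

/-- **finiteness** -/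
theorem finiteness {θ ε κ : ℝ} (hκ : 0 < κ) (hε : 0 ≤ ε)
    (key : ∀ h k ρ : E n → ℝ, Dfn h → Dfn k → Scl ε ρ →
      (∀ x, h x = 0 → ∀ r, 0 < r → r ≤ ρ x → ∃ ν : E n, ‖ν‖ = 1 ∧ Crs θ ε h x r ν) →
      (∀ x, k x = 0 → ∀ r, 0 < r → r ≤ ρ x → ∃ ν : E n, ‖ν‖ = 1 ∧ Crs θ ε k x r ν) →
      ∀ T : Set (E n), (∀ y, ∃ g ∈ T, ‖g - y‖ ≤ κ * ρ y) → (∀ g ∈ T, 0 < h g ↔ 0 < k g) →
      ∃ Φ Ψ : E n → E n, Cpt Φ Ψ ∧ ∀ x, (0 < k (Φ x) ↔ 0 < h x) ∧ (k (Φ x) < 0 ↔ h x < 0))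
    {R ρ₀ : ℝ} (hρ₀ : 0 < ρ₀) : ∃ N : ℕ, ∀ h : Fin (N + 1) → E n → ℝ, (∀ i, Dfn (h i)) →
      (∀ i x, R ≤ ‖x‖ → 0 < h i x) →
      (∀ i x, h i x = 0 → ∀ r, 0 < r → r ≤ ρ₀ → ∃ ν : E n, ‖ν‖ = 1 ∧ Crs θ ε (h i) x r ν) →
      ∃ i j, i ≠ j ∧ ∃ Φ Ψ : E n → E n, Cpt Φ Ψ ∧
        ∀ x, (0 < h j (Φ x) ↔ 0 < h i x) ∧ (h j (Φ x) < 0 ↔ h i x < 0) := by
  classical
  have hκρ : 0 < κ * ρ₀ := by positivity
  obtain ⟨T₀, _, hT₀f, hT₀⟩ := (isCompact_closedBall (0 : E n) R).finite_cover_balls hκρ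
  obtain ⟨t, ht⟩ : ∃ t : Finset (E n), t = hT₀f.toFinset := ⟨_, rfl⟩
  refine ⟨2 ^ t.card, fun h hh hR hC => ?_⟩
  obtain ⟨P, hP⟩ : ∃ P : Fin (2 ^ t.card + 1) → t.powerset, P = fun i =>
      ⟨t.filter fun g => 0 < h i g, Finset.mem_powerset.2 (Finset.filter_subset _ _)⟩ := ⟨_, rfl⟩
  obtain ⟨i, j, hij, hPij⟩ := Fintype.exists_ne_map_eq_of_card_lt P (by
    rw [Fintype.card_coe, Finset.card_powerset, Fintype.card_fin]
    exact Nat.lt_succ_self _)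
  refine ⟨i, j, hij, key (h i) (h j) (fun _ => ρ₀) (hh i) (hh j) ⟨contDiff_const, fun _ => hρ₀,
    fun x => by simpa using hε⟩ (hC i) (hC j) (T₀ ∪ {g | R ≤ ‖g‖}) (fun y => ?_) (fun g hg => ?_)⟩
  · rcases le_or_gt R ‖y‖ with hy | hy
    · exact ⟨y, Or.inr hy, by rw [sub_self, norm_zero]; exact hκρ.le⟩
    · obtain ⟨g, hg, hgy⟩ := mem_iUnion₂.1 (hT₀ (mem_closedBall_zero_iff.2 hy.le))
      refine ⟨g, Or.inl hg, ?_⟩
      rw [mem_ball, dist_comm, dist_eq_norm] at hgy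
      exact hgy.le
  · rcases hg with hg | hg
    · have h1 : t.filter (fun g => 0 < h i g) = t.filter fun g => 0 < h j g := by
        have := congrArg Subtype.val hPij
        rw [hP] at this
        exact this
      have hgt : g ∈ t := by
        rw [ht, Set.Finite.mem_toFinset]
        exact hg
      have h2 := Finset.ext_iff.1 h1 g
      simp only [Finset.mem_filter, hgt, true_and] at h2
      exact h2
    · exact ⟨fun _ => hR j g hg, fun _ => hR i g hg⟩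

end Pool.Agent.K7.H28.GS
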