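import Pool.Agent.K7.H28.CB.C2
import Pool.Agent.K7.H28.GS.L1

/-!
# Mollifications of functions which increase coarsely in one direction
-/

set_option autoImplicit false

open Set Filter Topology Metric Function MeasureTheory
open scoped ContDiff NNReal

noncomputable section

namespace Pool.Agent.K7.H28.GS

open Pool.Agent.Y522 Pool.Agent.Y954.SH Pool.Agent.K7.H28.AF Pool.Agent.K7.H28.CB
open Pool.Agent.Y207.SH3 (kr_smul_integrable kr_cont kr_support)

variable {n : ℕ}

theorem kr_cpt : HasCompactSupport (kr n) := by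
  refine HasCompactSupport.of_support_subset_isCompact (isCompact_closedBall (0 : E n) 1) ?_
  rw [kr_support]
  exact ball_subset_closedBall

/-- second order estimate for the kernel -/
theorem kr_taylor (n : ℕ) : ∃ C : ℝ, 0 ≤ C ∧ ∀ z u : E n,
    |kr n (z + u) - kr n z - fderiv ℝ (kr n) z u| ≤ C * ‖u‖ * ‖u‖ := by
  have h1 : ContDiff ℝ 1 (fderiv ℝ (kr n)) :=
    ((kr_smooth (n := n)).fderiv_right (m := ∞) (by simp)).of_le (by simp)
  obtain ⟨C, hC⟩ := h1.lipschitzWith_of_hasCompactSupport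
    ((kr_cpt (n := n)).fderiv (𝕜 := ℝ)) one_ne_zero
  refine ⟨C, C.2, fun z u => ?_⟩
  have h2 := Convex.norm_image_sub_le_of_norm_hasFDerivWithin_le' (𝕜 := ℝ) (f := kr n)
    (f' := fderiv ℝ (kr n)) (φ := fderiv ℝ (kr n) z) (C := C * ‖u‖) (s := closedBall z ‖u‖)
    (x := z) (y := z + u)
    (fun x _ => (((kr_smooth (n := n)).differentiable (by simp)) x).hasFDerivAt.hasFDerivWithinAt)
    (fun x hx => by
      have h3 := hC.dist_le_mul x z
      rw [dist_eq_norm] at h3
      refine h3.trans ?_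
      exact mul_le_mul_of_nonneg_left hx C.2) (convex_closedBall z ‖u‖)
    (mem_closedBall_self (norm_nonneg u)) (by
      rw [mem_closedBall, dist_eq_norm, add_sub_cancel_left])
  rw [add_sub_cancel_left, Real.norm_eq_abs] at h2
  exact h2

theorem kr_shell (n : ℕ) : ∃ L : ℝ, 0 ≤ L ∧ ∀ (β : ℝ) (z : E n), 0 < β → β ≤ 1 → 1 - β ≤ ‖z‖ →
    kr n z ≤ L * β := by
  obtain ⟨L, hL⟩ := ((kr_smooth (n := n)).of_le
    (by simp : (1 : WithTop ℕ∞) ≤ ∞)).lipschitzWith_of_hasCompactSupport kr_cpt one_ne_zero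
  have hL0 : (0 : ℝ) ≤ L := L.2
  have h0 := kr_nonneg (n := n) 0
  refine ⟨L + kr n 0, by positivity, fun β z hβ hβ1 hz => ?_⟩
  rcases le_or_gt 1 ‖z‖ with h1 | h1
  · rw [kr_zero h1]
    positivity
  rcases eq_or_ne z 0 with rfl | hz0
  · rw [norm_zero] at hz
    have h2 : β = 1 := le_antisymm hβ1 (by linarith)
    rw [h2]
    linarith
  · have hzn : 0 < ‖z‖ := norm_pos_iff.2 hz0
    have h2 := hL.dist_le_mul z (‖z‖⁻¹ • z)
    have h3 : ‖‖z‖⁻¹ • z‖ = 1 := by
      rw [norm_smul, norm_inv, norm_norm, inv_mul_cancel₀ hzn.ne']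
    rw [kr_zero h3.ge, Real.dist_eq, sub_zero, abs_of_nonneg (kr_nonneg z), dist_eq_norm] at h2
    have h4 : z - ‖z‖⁻¹ • z = (1 - ‖z‖⁻¹) • z := by rw [sub_smul, one_smul]
    have h5 : ‖z - ‖z‖⁻¹ • z‖ ≤ β := by
      rw [h4, norm_smul, Real.norm_eq_abs, ← abs_of_pos hzn, ← abs_mul, sub_mul, one_mul,
        abs_of_pos hzn, inv_mul_cancel₀ hzn.ne', abs_sub_comm, abs_of_nonneg (by linarith)]
      linarith
    refine h2.trans ?_
    nlinarith

theorem kr_low {β : ℝ} (hβ : 0 < β) : ∃ η : ℝ, 0 < η ∧ ∀ z : E n, ‖z‖ ≤ 1 - β → η ≤ kr n z := by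
  rcases le_or_gt (1 - β) 0 with h | h
  · refine ⟨kr n 0, ?_, fun z hz => ?_⟩
    · have : (0 : E n) ∈ support (kr n) := by
        rw [kr_support]
        exact mem_ball_self one_pos
      exact lt_of_le_of_ne (kr_nonneg 0) (Ne.symm this)
    · have : z = 0 := norm_le_zero_iff.1 (hz.trans h)
      rw [this]
  · obtain ⟨z₀, hz₀, hmin⟩ := (isCompact_closedBall (0 : E n) (1 - β)).exists_isMinOn
      ⟨0, mem_closedBall_self h.le⟩ (kr_cont (n := n)).continuousOn
    refine ⟨kr n z₀, ?_, fun z hz => hmin (mem_closedBall_zero_iff.2 hz)⟩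
    have : z₀ ∈ support (kr n) := by
      rw [kr_support, mem_ball_zero_iff]
      rw [mem_closedBall_zero_iff] at hz₀
      linarith
    exact lt_of_le_of_ne (kr_nonneg _) (Ne.symm this)

/-- the increment of the mollification -/
def II (g : E n → ℝ) (ν : E n) (a : ℝ) : ℝ := ∫ z, kr n z * (g (z + a • ν) - g z)

theorem kr_int_g {g : E n → ℝ} (hg : Continuous g) : Integrable fun z => kr n z * g z :=
  kr_smul_integrable hg.continuousOn

theorem II_eq {g : E n → ℝ} (hg : Continuous g) (ν : E n) (a : ℝ) :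
    II g ν a = ∫ z, (kr n (z - a • ν) - kr n z) * g z := by
  unfold II
  have i1 : Integrable fun z => kr n z * g (z + a • ν) := kr_int_g (hg.comp (by fun_prop))
  have i2 : Integrable fun z => kr n z * g z := kr_int_g hg
  have i3 : Integrable fun z => kr n (z - a • ν) * g z := by
    have h1 := i1.comp_sub_right (a • ν)
    simpa using h1
  have e1 : ∀ z, kr n z * (g (z + a • ν) - g z) = kr n z * g (z + a • ν) - kr n z * g z := by
    intro z
    ring
  have e2 : ∀ z, (kr n (z - a • ν) - kr n z) * g z = kr n (z - a • ν) * g z - kr n z * g z := by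
    intro z
    ring
  simp only [e1, e2]
  rw [integral_sub i1 i2, integral_sub i3 i2]
  congr 1
  have h2 := integral_sub_right_eq_self (μ := volume) (fun z => kr n z * g (z + a • ν)) (a • ν)
  rw [← h2]
  simp

theorem step_compare (n : ℕ) : ∃ C : ℝ, 0 ≤ C ∧ ∀ (g : E n → ℝ) (ν : E n) (a δ : ℝ),
    Continuous g → (∀ z, |g z| ≤ 1) → ‖ν‖ = 1 → 0 < a → a ≤ δ → δ ≤ 1 →
    |II g ν a / a - II g ν δ / δ| ≤ C * δ := by
  obtain ⟨C, hC0, hC⟩ := kr_taylor n
  refine ⟨2 * C * volume.real (closedBall (0 : E n) 2), by positivity, ?_⟩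
  intro g ν a δ hg hg1 hν ha haδ hδ1
  have hδ : 0 < δ := ha.trans_le haδ
  have i0 : ∀ c : ℝ, Integrable fun z => (kr n (z - c • ν) - kr n z) * g z := by
    intro c
    have i1 : Integrable fun z => kr n z * g (z + c • ν) := kr_int_g (hg.comp (by fun_prop))
    have i3 : Integrable fun z => kr n (z - c • ν) * g z := by
      have h1 := i1.comp_sub_right (c • ν)
      simpa using h1
    refine (i3.sub (kr_int_g hg)).congr (Eventually.of_forall fun z => ?_)
    simp only [Pi.sub_apply]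
    ring
  obtain ⟨w, hw⟩ : ∃ w : E n → ℝ, w = fun z =>
      (kr n (z - a • ν) - kr n z) / a - (kr n (z - δ • ν) - kr n z) / δ := ⟨_, rfl⟩
  have h1 : II g ν a / a - II g ν δ / δ = ∫ z, w z * g z := by
    rw [II_eq hg, II_eq hg, ← integral_div, ← integral_div, ← integral_sub ((i0 a).div_const a)
      ((i0 δ).div_const δ), hw]
    congr 1
    funext z
    ring
  have h2 : ∀ z, |w z| ≤ 2 * C * δ := by
    intro z
    have hT : ∀ c : ℝ, 0 < c → c ≤ δ →
        |(kr n (z - c • ν) - kr n z) / c + fderiv ℝ (kr n) z ν| ≤ C * δ := by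
      intro c hc hcδ
      have h3 := hC z (-(c • ν))
      rw [norm_neg, norm_smul, hν, mul_one, Real.norm_of_nonneg hc.le, map_neg, map_smul,
        smul_eq_mul, sub_neg_eq_add, ← sub_eq_add_neg] at h3
      have h4 : (kr n (z - c • ν) - kr n z) / c + fderiv ℝ (kr n) z ν =
          (kr n (z - c • ν) - kr n z + c * fderiv ℝ (kr n) z ν) / c := by
        field_simp
      rw [h4, abs_div, abs_of_pos hc, div_le_iff₀ hc]
      refine h3.trans ?_
      nlinarith [mul_nonneg hC0 hc.le]
    have h5 := abs_le.1 (hT a ha haδ)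
    have h6 := abs_le.1 (hT δ hδ le_rfl)
    rw [hw]
    refine abs_le.2 ⟨?_, ?_⟩ <;> simp only <;> linarith [h5.1, h5.2, h6.1, h6.2]
  have h3 : ∀ z ∉ closedBall (0 : E n) 2, w z * g z = 0 := by
    intro z hz
    rw [mem_closedBall_zero_iff, not_le] at hz
    have h4 : kr n z = 0 := kr_zero (by linarith)
    have h5 : ∀ c : ℝ, 0 < c → c ≤ 1 → kr n (z - c • ν) = 0 := by
      intro c hc hc1
      apply kr_zero
      have h6 := norm_sub_norm_le z (c • ν)
      rw [norm_smul, hν, mul_one, Real.norm_of_nonneg hc.le] at h6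
      linarith
    rw [hw]
    simp only
    rw [h4, h5 a ha (haδ.trans hδ1), h5 δ hδ hδ1]
    ring
  rw [h1, ← setIntegral_eq_integral_of_forall_compl_eq_zero h3]
  have h4 := norm_setIntegral_le_of_norm_le_const (μ := volume) (s := closedBall (0 : E n) 2)
    (f := fun z => w z * g z) (C := 2 * C * δ) (isCompact_closedBall _ _).measure_lt_top (by
      intro z _
      rw [Real.norm_eq_abs, abs_mul]
      calc |w z| * |g z| ≤ 2 * C * δ * 1 := mul_le_mul (h2 z) (hg1 z) (abs_nonneg _) (by positivity)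
        _ = 2 * C * δ := mul_one _)
  rw [Real.norm_eq_abs] at h4
  refine h4.trans (le_of_eq ?_)
  ring

/-- the cone property at unit scale -/
def Cone (g : E n → ℝ) (ν : E n) (θ δ : ℝ) : Prop :=
  ∀ (w w' : E n) (τ : ℝ), ‖w‖ ≤ 4 → ‖w'‖ ≤ 4 → δ ≤ τ → ‖w' - w - τ • ν‖ ≤ θ * τ →
    g w = -1 ∨ g w' = 1

theorem cone_mono {g : E n → ℝ} {ν : E n} {θ δ : ℝ} (hg : ∀ z, |g z| ≤ 1) (hθ : 0 ≤ θ)
    (hδ : 0 ≤ δ) (hδ1 : δ ≤ 1) (hν : ‖ν‖ = 1)
    (h : Cone g ν θ δ) {z : E n} (hz : ‖z‖ ≤ 3) : g z ≤ g (z + δ • ν) := by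
  have h1 := h z (z + δ • ν) δ (by linarith) (by
    refine (norm_add_le _ _).trans ?_
    rw [norm_smul, hν, mul_one, Real.norm_of_nonneg hδ]
    linarith) le_rfl (by
    rw [add_sub_cancel_left, sub_self, norm_zero]
    positivity)
  rcases h1 with h1 | h1
  · rw [h1]
    exact (abs_le.1 (hg _)).1
  · rw [h1]
    exact (abs_le.1 (hg _)).2

theorem II_nonneg {g : E n → ℝ} {ν : E n} {θ δ : ℝ} (hg : ∀ z, |g z| ≤ 1) (hθ : 0 ≤ θ)
    (hδ : 0 ≤ δ) (hδ1 : δ ≤ 1) (hν : ‖ν‖ = 1) (h : Cone g ν θ δ) : 0 ≤ II g ν δ := by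
  unfold II
  refine integral_nonneg fun z => ?_
  by_cases hz : kr n z = 0
  · simp [hz]
  · refine mul_nonneg (kr_nonneg z) (sub_nonneg.2 ?_)
    exact cone_mono hg hθ hδ hδ1 hν h (by linarith [kr_lt hz])

theorem tube (θ β : ℝ) (hθ : 0 < θ) (hθ1 : θ ≤ 1) (hβ : 0 < β) (hβ1 : β ≤ 1) :
    ∃ c₀ : ℝ, 0 < c₀ ∧ ∀ (k : ℕ) (g : E n → ℝ) (ν w₀ : E n), 0 < k → Continuous g →
      (∀ z, |g z| ≤ 1) → ‖ν‖ = 1 → Cone g ν θ (β / 4 / k) → ‖w₀‖ ≤ 1 - β → |g w₀| < 1 →
      c₀ * (β / 4 / k) ≤ II g ν (β / 4 / k) := by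
  obtain ⟨η, hη, hηk⟩ := kr_low (n := n) (β := β / 2) (by linarith)
  obtain ⟨b, hb⟩ : ∃ b : ℝ, b = β / 4 := ⟨_, rfl⟩
  have hb0 : 0 < b := by rw [hb]; linarith
  have hb1 : b ≤ 1 / 4 := by rw [hb]; linarith
  obtain ⟨B, hB⟩ : ∃ B : Set (E n), B = ball 0 (θ * b) := ⟨_, rfl⟩
  have hθb : 0 < θ * b := by positivity
  have hθb1 : θ * b ≤ b := by nlinarith
  have hBv : 0 < volume.real B := by
    rw [hB, measureReal_def, ENNReal.toReal_pos_iff]
    exact ⟨measure_ball_pos _ _ hθb, measure_ball_lt_top⟩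
  refine ⟨η * volume.real B / b, by positivity, ?_⟩
  intro k g ν w₀ hk hg hg1 hν hcone hw₀ hgw
  rw [← hb] at hcone ⊢
  have hkr : (0 : ℝ) < k := by exact_mod_cast hk
  have hk1 : (1 : ℝ) ≤ k := by exact_mod_cast hk
  obtain ⟨δ, hδd⟩ : ∃ δ : ℝ, δ = b / k := ⟨_, rfl⟩
  rw [← hδd] at hcone ⊢
  have hδ : 0 < δ := by rw [hδd]; positivity
  have hkδ : k * δ = b := by rw [hδd]; field_simp
  have hδb : δ ≤ b := by
    rw [← hkδ]
    nlinarith
  obtain ⟨a, had⟩ : ∃ a : ℕ → E n, a = fun j : ℕ => w₀ + ((j : ℝ) * δ - b) • ν := ⟨_, rfl⟩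
  obtain ⟨A, hAd⟩ : ∃ A : ℕ → ℝ, A = fun j => ∫ w in B, g (a j + w) := ⟨_, rfl⟩
  have hastep : ∀ j, a (j + 1) = a j + δ • ν := by
    intro j
    rw [had]
    simp only
    rw [add_assoc, ← add_smul]
    congr 2
    push_cast
    ring
  have han : ∀ j, j ≤ 2 * k → ‖a j‖ ≤ 1 - β + b := by
    intro j hj
    have hj' : (j : ℝ) ≤ 2 * k := by exact_mod_cast hj
    have hj0 : (0 : ℝ) ≤ j := Nat.cast_nonneg j
    rw [had]
    refine (norm_add_le _ _).trans ?_
    rw [norm_smul, hν, mul_one, Real.norm_eq_abs]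
    have : |(j : ℝ) * δ - b| ≤ b := by
      refine abs_le.2 ⟨?_, ?_⟩
      · have := mul_nonneg hj0 hδ.le
        linarith
      · have : (j : ℝ) * δ ≤ 2 * k * δ := mul_le_mul_of_nonneg_right hj' hδ.le
        have h2 : 2 * (k : ℝ) * δ = 2 * b := by rw [← hkδ]; ring
        linarith
    linarith
  have hint : ∀ c : E n, Integrable (fun w => g (c + w)) (volume.restrict B) := by
    intro c
    have hf : Continuous fun w => g (c + w) := hg.comp (by fun_prop)
    have h1 : IntegrableOn (fun w => g (c + w)) (closedBall (0 : E n) (θ * b)) :=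
      hf.continuousOn.integrableOn_compact (isCompact_closedBall _ _)
    refine h1.mono_set ?_
    rw [hB]
    exact ball_subset_closedBall
  have hmB : MeasurableSet B := by rw [hB]; exact measurableSet_ball
  -- one step of the sum
  have hstep : ∀ j ∈ Finset.range (2 * k), A (j + 1) - A j ≤ II g ν δ / η := by
    intro j hj
    have hj2 : j ≤ 2 * k := (Finset.mem_range.1 hj).le
    rw [hAd]
    simp only
    rw [← integral_sub (hint _) (hint _), ← integral_indicator hmB]
    have hII : II g ν δ / η = ∫ w, kr n (a j + w) * (g (a j + w + δ • ν) - g (a j + w)) / η := by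
      rw [integral_div]
      congr 1
      exact (integral_add_left_eq_self (μ := volume)
        (fun z => kr n z * (g (z + δ • ν) - g z)) (a j)).symm
    rw [hII]
    have i1 : Integrable fun z => kr n z * (g (z + δ • ν) - g z) :=
      kr_int_g ((hg.comp (by fun_prop)).sub hg)
    have i2 := (i1.comp_add_left (a j)).div_const η
    refine integral_mono ?_ i2 fun w => ?_
    · exact (show IntegrableOn (fun w => g (a (j + 1) + w) - g (a j + w)) B volume from
        (hint (a (j + 1))).sub (hint (a j))).integrable_indicator hmB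
    · by_cases hw : w ∈ B
      · rw [indicator_of_mem hw, hastep]
        have hwn : ‖w‖ < θ * b := by
          rw [hB, mem_ball_zero_iff] at hw
          exact hw
        have h1 : ‖a j + w‖ ≤ 1 - β / 2 := by
          refine (norm_add_le _ _).trans ?_
          have := han j hj2
          rw [hb] at this hwn hθb1
          linarith
        have h2 := hηk _ h1
        have h3 : g (a j + w) ≤ g (a j + w + δ • ν) :=
          cone_mono hg1 hθ.le hδ.le (by linarith) hν hcone (by linarith)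
        have h4 : a j + δ • ν + w = a j + w + δ • ν := by abel
        rw [h4]
        change g (a j + w + δ • ν) - g (a j + w) ≤ kr n (a j + w) * (g (a j + w + δ • ν) - g (a j + w)) / η
        rw [le_div_iff₀ hη, mul_comm]
        exact mul_le_mul_of_nonneg_right h2 (sub_nonneg.2 h3)
      · rw [indicator_of_notMem hw]
        change 0 ≤ kr n (a j + w) * (g (a j + w + δ • ν) - g (a j + w)) / η
        refine div_nonneg ?_ hη.le
        by_cases h0 : kr n (a j + w) = 0
        · rw [h0, zero_mul]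
        · exact mul_nonneg (kr_nonneg _) (sub_nonneg.2
            (cone_mono hg1 hθ.le hδ.le (by linarith) hν hcone (by linarith [kr_lt h0])))
  have hsum := Finset.sum_le_sum hstep
  rw [Finset.sum_range_sub, Finset.sum_const, Finset.card_range, nsmul_eq_mul] at hsum
  have htop : A (2 * k) = volume.real B := by
    rw [hAd]
    simp only
    rw [setIntegral_congr_fun (g := fun _ => (1 : ℝ)) hmB, setIntegral_const]
    · simp
    intro w hw
    have hwn : ‖w‖ < θ * b := by
      rw [hB, mem_ball_zero_iff] at hw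
      exact hw
    have h1 : a (2 * k) = w₀ + b • ν := by
      rw [had]
      simp only
      congr 2
      push_cast
      rw [← hkδ]
      ring
    simp only
    rw [h1]
    have h2 := hcone w₀ (w₀ + b • ν + w) b (by linarith) (by
      refine (norm_add_le _ _).trans ?_
      have h3 := norm_add_le w₀ (b • ν)
      rw [norm_smul, hν, mul_one, Real.norm_of_nonneg hb0.le] at h3
      linarith) hδb (by
      have h3 : w₀ + b • ν + w - w₀ - b • ν = w := by abel
      rw [h3]
      exact hwn.le)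
    rcases h2 with h2 | h2
    · rw [h2, abs_neg, abs_one] at hgw
      exact absurd hgw (lt_irrefl _)
    · exact h2
  have hbot : A 0 = -volume.real B := by
    rw [hAd]
    simp only
    rw [setIntegral_congr_fun (g := fun _ => (-1 : ℝ)) hmB, setIntegral_const]
    · simp
    intro w hw
    have hwn : ‖w‖ < θ * b := by
      rw [hB, mem_ball_zero_iff] at hw
      exact hw
    have h1 : a 0 = w₀ - b • ν := by
      rw [had]
      simp only
      rw [Nat.cast_zero, zero_mul, zero_sub, neg_smul, sub_eq_add_neg]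
    simp only
    rw [h1]
    have h2 := hcone (w₀ - b • ν + w) w₀ b (by
      refine (norm_add_le _ _).trans ?_
      have h3 := norm_sub_le w₀ (b • ν)
      rw [norm_smul, hν, mul_one, Real.norm_of_nonneg hb0.le] at h3
      linarith) (by linarith) hδb (by
      have h3 : w₀ - (w₀ - b • ν + w) - b • ν = -w := by abel
      rw [h3, norm_neg]
      exact hwn.le)
    rcases h2 with h2 | h2
    · exact h2
    · rw [h2, abs_one] at hgw
      exact absurd hgw (lt_irrefl _)
  rw [htop, hbot] at hsum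
  push_cast at hsum
  have h5 : volume.real B ≤ k * (II g ν δ / η) := by linarith
  have h6 : η * volume.real B / b * δ = η * volume.real B / k := by
    rw [hδd]
    field_simp
  rw [h6, div_le_iff₀ hkr]
  have h7 : (k : ℝ) * (II g ν δ / η) * η = II g ν δ * k := by field_simp
  nlinarith [mul_le_mul_of_nonneg_right h5 hη.le]

end Pool.Agent.K7.H28.GS
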