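import Pool.Agent.K7.H28.GS.L2

/-!
# Increments of the mollification, signs
-/

set_option autoImplicit false

open Set Filter Topology Metric Function MeasureTheory
open scoped ContDiff NNReal

noncomputable section

namespace Pool.Agent.K7.H28.GS

open Pool.Agent.Y522 Pool.Agent.Y954.SH Pool.Agent.K7.H28.AF Pool.Agent.K7.H28.CB
open Pool.Agent.Y207.SH3 (kr_smul_integrable kr_cont kr_support)

variable {n : ℕ}

theorem scale_err (n : ℕ) : ∃ C : ℝ, 0 ≤ C ∧ ∀ (g : E n → ℝ) (ν : E n) (a ρ : ℝ), Continuous g →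
    (∀ z, |g z| ≤ 1) → ‖ν‖ = 1 → |ρ - 1| ≤ 1 / 2 →
    |(∫ s, kr n s * g (a • ν + ρ • s)) - ∫ s, kr n s * g (s + a • ν)| ≤ C * |ρ - 1| := by
  obtain ⟨C, hC0, hC⟩ := moll_diffR n
  refine ⟨C, hC0, fun g ν a ρ hg hg1 hν hρ => ?_⟩
  have h1 := hC ν hν (fun w => g (w + a • ν)) 1 zero_le_one (hg.comp (by fun_prop))
    (fun w _ => hg1 _) ρ 0 hρ (by simp)
  rw [norm_zero, add_zero, mul_one] at h1
  simp only [smul_eq_mul, zero_add] at h1
  have e : ∀ s : E n, a • ν + ρ • s = ρ • s + a • ν := fun s => add_comm _ _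
  simp only [e]
  exact h1

/-- the general estimate -/
theorem gl (n : ℕ) (θ β : ℝ) (hθ : 0 < θ) (hθ1 : θ ≤ 1) (hβ : 0 < β) (hβ1 : β ≤ 1) :
    ∃ c₀ δ₀ : ℝ, 0 < c₀ ∧ 0 < δ₀ ∧ δ₀ ≤ 1 / 4 ∧ ∀ (g : E n → ℝ) (ν : E n), Continuous g →
      (∀ z, |g z| ≤ 1) → ‖ν‖ = 1 → Cone g ν θ δ₀ → ∀ a ρ : ℝ, 0 < a → a ≤ δ₀ →
      |ρ - 1| ≤ δ₀ * a →
      -(c₀ / 6) * a ≤ (∫ s, kr n s * g (a • ν + ρ • s)) - ∫ s, kr n s * g s ∧
      ((∃ w₀, ‖w₀‖ ≤ 1 - β ∧ |g w₀| < 1) →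
        2 / 3 * c₀ * a ≤ (∫ s, kr n s * g (a • ν + ρ • s)) - ∫ s, kr n s * g s) := by
  obtain ⟨c₀, hc₀, htube⟩ := tube (n := n) θ β hθ hθ1 hβ hβ1
  obtain ⟨C₁, hC₁, hstep⟩ := step_compare n
  obtain ⟨C₃, hC₃, hscale⟩ := scale_err n
  obtain ⟨k, hk⟩ := exists_nat_gt (12 * (C₁ + C₃ + 1) / c₀)
  have hq0 : 0 < 12 * (C₁ + C₃ + 1) / c₀ := by positivity
  have hkr : (0 : ℝ) < k := hq0.trans hk
  have hk0 : 0 < k := by exact_mod_cast hkr
  have hk1 : (1 : ℝ) ≤ k := by exact_mod_cast hk0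
  obtain ⟨δ, hδd⟩ : ∃ δ : ℝ, δ = β / 4 / k := ⟨_, rfl⟩
  have hδ0 : 0 < δ := by rw [hδd]; positivity
  have hδk : δ * k ≤ 1 / 4 := by
    rw [hδd]
    field_simp
    linarith
  have hδ1 : δ ≤ 1 / 4 := by nlinarith
  have hCδ : (C₁ + C₃) * δ ≤ c₀ / 12 / 4 := by
    rw [div_lt_iff₀ hc₀] at hk
    have h1 : 12 * (C₁ + C₃ + 1) * δ ≤ c₀ * (δ * k) := by
      have := mul_le_mul_of_nonneg_right hk.le hδ0.le
      nlinarith
    nlinarith
  have hC1δ : C₁ * δ ≤ c₀ / 12 := by nlinarith [mul_nonneg hC₃ hδ0.le]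
  have hC3δ : C₃ * δ ≤ c₀ / 12 := by nlinarith [mul_nonneg hC₁ hδ0.le]
  refine ⟨c₀, δ, hc₀, hδ0, hδ1, ?_⟩
  intro g ν hg hg1 hν hcone a ρ ha haδ hρ
  have hρ' : |ρ - 1| ≤ 1 / 2 := by nlinarith
  have h1 := (abs_le.1 (hscale g ν a ρ hg hg1 hν hρ')).1
  have h2 := (abs_le.1 (hstep g ν a δ hg hg1 hν ha haδ (by linarith))).1
  have h3 : C₃ * |ρ - 1| ≤ c₀ / 12 * a := by
    calc C₃ * |ρ - 1| ≤ C₃ * (δ * a) := mul_le_mul_of_nonneg_left hρ hC₃
      _ = C₃ * δ * a := by ring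
      _ ≤ c₀ / 12 * a := mul_le_mul_of_nonneg_right hC3δ ha.le
  have h4 : II g ν a = (∫ s, kr n s * g (s + a • ν)) - ∫ s, kr n s * g s := by
    have i1 : Integrable fun z => kr n z * g (z + a • ν) :=
      kr_int_g (hg.comp (by fun_prop : Continuous fun z : E n => z + a • ν))
    unfold II
    rw [← integral_sub i1 (kr_int_g hg)]
    congr 1
    funext z
    ring
  have h5 : ∀ c : ℝ, c * δ ≤ II g ν δ → (c - c₀ / 12) * a ≤ II g ν a := by
    intro c hc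
    have h6 : c ≤ II g ν δ / δ := by rwa [le_div_iff₀ hδ0]
    have h7 : c - c₀ / 12 ≤ II g ν a / a := by linarith
    rwa [le_div_iff₀ ha] at h7
  refine ⟨?_, fun hw => ?_⟩
  · have h6 := h5 0 (by
      rw [zero_mul]
      exact II_nonneg hg1 hθ.le hδ0.le (by linarith) hν hcone)
    rw [h4] at h6
    nlinarith
  · obtain ⟨w₀, hw1, hw2⟩ := hw
    have h7 := htube k g ν w₀ hk0 hg hg1 hν (by rw [← hδd]; exact hcone) hw1 hw2
    rw [← hδd] at h7
    have h6 := h5 c₀ h7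
    rw [h4] at h6
    nlinarith [mul_pos hc₀ ha]

/-- a continuous function with values `1` and `-1` on a preconnected set is constant -/
theorem const_sign {V : Type} [TopologicalSpace V] {g : V → ℝ} (hg : Continuous g) {S : Set V}
    (hS : IsPreconnected S) (hg1 : ∀ z, |g z| ≤ 1) (h : ∀ z ∈ S, ¬ |g z| < 1) :
    (∀ z ∈ S, g z = 1) ∨ ∀ z ∈ S, g z = -1 := by
  have h1 : ∀ z ∈ S, g z = 1 ∨ g z = -1 := by
    intro z hz
    have h2 : |g z| = 1 := le_antisymm (hg1 z) (not_lt.1 (h z hz))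
    exact (abs_eq zero_le_one).1 h2
  by_contra hne
  push Not at hne
  obtain ⟨⟨x, hx, hx1⟩, ⟨y, hy, hy1⟩⟩ := hne
  have hx2 : g x = -1 := (h1 x hx).resolve_left hx1
  have hy2 : g y = 1 := (h1 y hy).resolve_right hy1
  obtain ⟨z, hz, hz0⟩ := hS.intermediate_value hx hy hg.continuousOn
    (show (0 : ℝ) ∈ Icc (g x) (g y) by
      rw [hx2, hy2]
      exact ⟨by norm_num, by norm_num⟩)
  apply h z hz
  rw [hz0, abs_zero]
  exact one_pos

theorem sign_half (n : ℕ) : ∃ β : ℝ, 0 < β ∧ β ≤ 1 / 2 ∧ ∀ g : E n → ℝ, Continuous g →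
    (∀ z, |g z| ≤ 1) → (∀ z, ‖z‖ ≤ 1 - β → g z = 1) → 1 / 2 ≤ ∫ s, kr n s * g s := by
  obtain ⟨L, hL0, hL⟩ := kr_shell n
  obtain ⟨v, hv⟩ : ∃ v : ℝ, v = volume.real (closedBall (0 : E n) 1) := ⟨_, rfl⟩
  have hv0 : 0 ≤ v := by rw [hv]; positivity
  obtain ⟨β, hβd⟩ : ∃ β : ℝ, β = 1 / (4 * (L * v + 1)) := ⟨_, rfl⟩
  have hLv : 0 ≤ L * v := mul_nonneg hL0 hv0
  have hβ0 : 0 < β := by rw [hβd]; positivity
  have hβ1 : β ≤ 1 / 4 := by
    rw [hβd]
    exact one_div_le_one_div_of_le (by norm_num) (by linarith)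
  have hβ2 : L * v * β ≤ 1 / 4 := by
    rw [hβd, mul_one_div, div_le_div_iff₀ (by positivity) (by norm_num)]
    linarith
  refine ⟨β, hβ0, by linarith, fun g hg hg1 h => ?_⟩
  have i1 : Integrable fun s => kr n s * g s := kr_int_g hg
  have i2 : Integrable fun s => kr n s * (1 - g s) := kr_int_g (continuous_const.sub hg)
  have h1 : (∫ s, kr n s * g s) = 1 - ∫ s, kr n s * (1 - g s) := by
    have h2 : (∫ s, kr n s * (1 - g s)) = (∫ s, kr n s) - ∫ s, kr n s * g s := by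
      rw [← integral_sub kr_integrable i1]
      congr 1
      funext s
      ring
    rw [h2, kr_int]
    ring
  have h3 : ∀ z ∉ closedBall (0 : E n) 1, kr n z * (1 - g z) = 0 := by
    intro z hz
    rw [mem_closedBall_zero_iff, not_le] at hz
    rw [kr_zero hz.le, zero_mul]
  have h4 : ∫ s, kr n s * (1 - g s) ≤ 1 / 2 := by
    rw [← setIntegral_eq_integral_of_forall_compl_eq_zero h3]
    have h5 := norm_setIntegral_le_of_norm_le_const (μ := volume) (s := closedBall (0 : E n) 1)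
      (f := fun z => kr n z * (1 - g z)) (C := 2 * (L * β))
      (isCompact_closedBall _ _).measure_lt_top (by
        intro z _
        rw [Real.norm_eq_abs, abs_mul, abs_of_nonneg (kr_nonneg z)]
        rcases le_or_gt ‖z‖ (1 - β) with hz | hz
        · rw [h z hz, sub_self, abs_zero, mul_zero]
          positivity
        · have h6 := hL β z hβ0 (by linarith) hz.le
          have h7 : |1 - g z| ≤ 2 := by
            have := abs_le.1 (hg1 z)
            exact abs_le.2 ⟨by linarith [this.2], by linarith [this.1]⟩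
          calc kr n z * |1 - g z| ≤ L * β * 2 :=
                mul_le_mul h6 h7 (abs_nonneg _) (by positivity)
            _ = 2 * (L * β) := by ring)
    refine (le_abs_self _).trans (h5.trans ?_)
    rw [← hv]
    nlinarith
  linarith

/-- lower bounds for derivatives -/
theorem deriv_ge {f : ℝ → ℝ} {f' c δ : ℝ} (hf : HasDerivAt f f' 0) (hδ : 0 < δ)
    (h : ∀ a, 0 < a → a ≤ δ → c * a ≤ f a - f 0) : c ≤ f' := by
  have h1 := hf.tendsto_slope_zero_right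
  refine ge_of_tendsto h1 ?_
  have h2 : Ioc (0 : ℝ) δ ∈ 𝓝[>] (0 : ℝ) := Ioc_mem_nhdsGT hδ
  filter_upwards [h2] with a ha
  have h3 := h a ha.1 ha.2
  rw [zero_add, smul_eq_mul, inv_mul_eq_div, le_div_iff₀ ha.1]
  exact h3

end Pool.Agent.K7.H28.GS
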