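import Pool.Agent.K7.H28.GS.L3

/-!
# Mollification of smooth functions with centre and radius as variables; the profile function
-/

set_option autoImplicit false

open Set Filter Topology Metric Function MeasureTheory
open scoped ContDiff NNReal Convolution

noncomputable section

namespace Pool.Agent.K7.H28.GS

open Pool.Agent.Y522 Pool.Agent.Y954.SH Pool.Agent.K7.H28.AF Pool.Agent.K7.H28.CB
open Pool.Agent.Y207.SH3 (kr_smul_integrable kr_cont kr_support)

variable {n : ℕ}

/-- the mollification as a function of the centre and the radius -/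
def MJ (G : E n → ℝ) (q : E n × ℝ) : ℝ := ∫ s, kr n s * G (q.1 + q.2 • s)

theorem MJ_zero (G : E n → ℝ) (x : E n) : MJ G (x, 0) = G x := by
  unfold MJ
  simp only [zero_smul, add_zero]
  rw [integral_mul_const, kr_int, one_mul]

theorem MJ_smooth {G : E n → ℝ} (hG : ContDiff ℝ ∞ G) : ContDiff ℝ ∞ (MJ G) := by
  let ζ : ContDiffBump (0 : E n) := ⟨1, 2, by norm_num, by norm_num⟩
  have hg : ContDiffOn ℝ ∞ (fun p : (E n × ℝ) × E n => ζ p.2 • G (p.1.1 - p.1.2 • p.2))
      (univ ×ˢ univ) := by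
    apply ContDiff.contDiffOn
    have a1 : ContDiff ℝ ∞ (fun p : (E n × ℝ) × E n => ζ p.2) := ζ.contDiff.comp contDiff_snd
    have a2 : ContDiff ℝ ∞ (fun p : (E n × ℝ) × E n => G (p.1.1 - p.1.2 • p.2)) := by
      apply hG.comp
      fun_prop
    exact a1.smul a2
  have key := contDiffOn_convolution_right_with_param_comp (μ := (volume : Measure (E n)))
    (f := kr n) (g := fun (p : E n × ℝ) (w : E n) => ζ w • G (p.1 - p.2 • w))
    (k := closedBall (0 : E n) 2) (v := fun _ => 0) (s := univ)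
    (n := ⊤) (ContinuousLinearMap.lsmul ℝ ℝ) contDiffOn_const isOpen_univ
    (isCompact_closedBall _ _) (by
      intro p w _ hw
      rw [mem_closedBall_zero_iff, not_le] at hw
      show ζ w • G (p.1 - p.2 • w) = 0
      rw [ζ.zero_of_le_dist (by rw [dist_zero_right]; exact hw.le), zero_smul])
    kr_integrable.locallyIntegrable hg
  rw [contDiffOn_univ] at key
  convert key using 2 with p
  unfold MJ convolution
  congr 1
  funext s
  simp only [ContinuousLinearMap.lsmul_apply, zero_sub, smul_neg, sub_neg_eq_add]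
  by_cases hs : kr n s = 0
  · rw [hs, zero_smul, zero_mul]
  · rw [ζ.one_of_mem_closedBall, one_smul, smul_eq_mul]
    rw [mem_closedBall_zero_iff, norm_neg]
    exact (kr_lt hs).le

/-- derivatives of the mollification -/
theorem MJ_deriv {G : E n → ℝ} (hG : ContDiff ℝ ∞ G) (p v : E n) (c d : ℝ) :
    HasDerivAt (fun h : ℝ => MJ G (p + h • v, c + h * d))
      (∫ s, kr n s * fderiv ℝ G (p + c • s) (v + d • s)) 0 := by
  obtain ⟨F', hF'⟩ : ∃ F' : ℝ → E n → ℝ, F' = fun h s =>
      kr n s * fderiv ℝ G (p + h • v + (c + h * d) • s) (v + d • s) := ⟨_, rfl⟩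
  have hfd : Continuous (fderiv ℝ G) := hG.continuous_fderiv (by simp)
  have hc : Continuous fun q : ℝ × E n =>
      fderiv ℝ G (p + q.1 • v + (c + q.1 * d) • q.2) (v + d • q.2) := by
    refine (hfd.comp ?_).clm_apply ?_ <;> fun_prop
  obtain ⟨B, hB⟩ := ((isCompact_Icc (a := (-1 : ℝ)) (b := 1)).prod
    (isCompact_closedBall (0 : E n) 1)).exists_bound_of_continuousOn hc.continuousOn
  have hint : ∀ h : ℝ, Integrable fun s => kr n s * G (p + h • v + (c + h * d) • s) := fun h =>
    kr_int_g (hG.continuous.comp (by fun_prop))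
  have key := hasDerivAt_integral_of_dominated_loc_of_deriv_le (μ := (volume : Measure (E n)))
    (F := fun (h : ℝ) (s : E n) => kr n s * G (p + h • v + (c + h * d) • s)) (F' := F') (x₀ := 0)
    (s := ball (0 : ℝ) 1) (bound := fun s => kr n s * B)
    (ball_mem_nhds 0 one_pos) (Eventually.of_forall fun h => (hint h).aestronglyMeasurable)
    (hint 0) (by
      rw [hF']
      refine (kr_cont.mul (hc.comp (by fun_prop :
        Continuous fun s : E n => ((0 : ℝ), s)))).aestronglyMeasurable)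
    (Eventually.of_forall fun s h hh => by
      rw [hF', Real.norm_eq_abs, abs_mul, abs_of_nonneg (kr_nonneg s)]
      by_cases hs : kr n s = 0
      · simp [hs]
      · refine mul_le_mul_of_nonneg_left ?_ (kr_nonneg s)
        rw [mem_ball_zero_iff, Real.norm_eq_abs] at hh
        have h1 := abs_lt.1 hh
        have h2 := hB (h, s) ⟨⟨h1.1.le, h1.2.le⟩, mem_closedBall_zero_iff.2 (kr_lt hs).le⟩
        exact h2) (kr_integrable.mul_const B)
    (Eventually.of_forall fun s h _ => by
      have h1 : HasDerivAt (fun h : ℝ => p + h • v + (c + h * d) • s) (v + d • s) h := by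
        have e1 : HasDerivAt (fun h : ℝ => h • v) ((1 : ℝ) • v) h := (hasDerivAt_id h).smul_const v
        have e2 : HasDerivAt (fun h : ℝ => (c + h * d) • s) ((1 * d) • s) h :=
          (((hasDerivAt_id h).mul_const d).const_add c).smul_const s
        have e3 := (e1.const_add p).add e2
        rw [one_smul, one_mul] at e3
        exact e3
      have h2 : HasFDerivAt G (fderiv ℝ G (p + h • v + (c + h * d) • s))
          (p + h • v + (c + h * d) • s) := ((hG.differentiable (by simp)) _).hasFDerivAt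
      have h3 := h2.comp_hasDerivAt h h1
      have h4 := h3.const_mul (kr n s)
      rw [hF']
      exact h4)
  have h5 := key.2
  rw [hF'] at h5
  simp only [zero_smul, add_zero, zero_mul] at h5
  exact h5

/-- the profile: smooth, odd, nondecreasing, constant off the interval `(-1, 1)`, with positive
derivative there -/
theorem exists_profile : ∃ ψ : ℝ → ℝ, ContDiff ℝ ∞ ψ ∧ (∀ x, |ψ x| ≤ 1) ∧ (∀ x, 1 ≤ x → ψ x = 1) ∧
    (∀ x, x ≤ -1 → ψ x = -1) ∧ (∀ x, |x| < 1 → |ψ x| < 1) ∧ (∀ x, |x| < 1 → 0 < deriv ψ x) ∧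
    (∀ x, 0 ≤ deriv ψ x) ∧ (∀ x, 1 ≤ |x| → deriv ψ x = 0) ∧ ψ 0 = 0 ∧ (∀ x, 0 < ψ x ↔ 0 < x) ∧
    ∀ x, ψ x < 0 ↔ x < 0 := by
  let b : ContDiffBump (0 : ℝ) := ⟨1 / 2, 1, by norm_num, by norm_num⟩
  obtain ⟨φ, hφ⟩ : ∃ φ : ℝ → ℝ, φ = b.normed volume := ⟨_, rfl⟩
  have hφs : ContDiff ℝ ∞ φ := by rw [hφ]; exact b.contDiff_normed
  have hφc : Continuous φ := hφs.continuous
  have hφ0 : ∀ x, 0 ≤ φ x := fun x => by rw [hφ]; exact b.nonneg_normed x
  have hφsup : support φ = ball (0 : ℝ) 1 := by rw [hφ]; exact b.support_normed_eq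
  have hφp : ∀ x, |x| < 1 → 0 < φ x := by
    intro x hx
    have : x ∈ support φ := by rw [hφsup, mem_ball_zero_iff]; exact hx
    exact lt_of_le_of_ne (hφ0 x) (Ne.symm this)
  have hφz : ∀ x, 1 ≤ |x| → φ x = 0 := by
    intro x hx
    by_contra h
    have : x ∈ support φ := h
    rw [hφsup, mem_ball_zero_iff, Real.norm_eq_abs] at this
    linarith
  have hφi : ∫ x, φ x = 1 := by rw [hφ]; exact b.integral_normed
  obtain ⟨P, hP⟩ : ∃ P : ℝ → ℝ, P = fun x => ∫ u in (0 : ℝ)..x, φ u := ⟨_, rfl⟩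
  have hPd : ∀ x, HasDerivAt P (φ x) x := by
    intro x
    rw [hP]
    exact intervalIntegral.integral_hasDerivAt_right (hφc.intervalIntegrable _ _)
      hφc.aestronglyMeasurable.stronglyMeasurableAtFilter hφc.continuousAt
  have hPs : ContDiff ℝ ∞ P := by
    rw [contDiff_infty_iff_deriv]
    refine ⟨fun x => (hPd x).differentiableAt, ?_⟩
    have : deriv P = φ := funext fun x => (hPd x).deriv
    rw [this]
    exact hφs
  obtain ⟨ψ, hψ⟩ : ∃ ψ : ℝ → ℝ, ψ = fun x => P x - P (-x) := ⟨_, rfl⟩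
  have hψs : ContDiff ℝ ∞ ψ := by
    rw [hψ]
    exact hPs.sub (hPs.comp contDiff_neg)
  have hψd : ∀ x, HasDerivAt ψ (φ x + φ (-x)) x := by
    intro x
    rw [hψ]
    have h1 : HasDerivAt (fun x => P (-x)) (φ (-x) * (-1)) x :=
      (hPd (-x)).comp x (hasDerivAt_neg x)
    have h2 := (hPd x).sub h1
    refine h2.congr_deriv ?_
    ring
  have hder : ∀ x, deriv ψ x = φ x + φ (-x) := fun x => (hψd x).deriv
  have hd0 : ∀ x, 0 ≤ deriv ψ x := fun x => by rw [hder]; exact add_nonneg (hφ0 _) (hφ0 _)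
  have hdp : ∀ x, |x| < 1 → 0 < deriv ψ x := fun x hx => by
    rw [hder]
    exact add_pos (hφp x hx) (hφp (-x) (by rwa [abs_neg]))
  have hodd : ∀ x, ψ (-x) = -ψ x := by
    intro x
    rw [hψ]
    simp only [neg_neg]
    ring
  have hψ0 : ψ 0 = 0 := by
    have := hodd 0
    rw [neg_zero] at this
    linarith
  have h1 : ∀ x, 1 ≤ x → ψ x = 1 := by
    intro x hx
    have h2 : ψ x = ∫ u in (-x)..x, φ u := by
      rw [hψ, hP]
      simp only
      rw [intervalIntegral.integral_interval_sub_left (hφc.intervalIntegrable _ _)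
        (hφc.intervalIntegrable _ _)]
    rw [h2, intervalIntegral.integral_of_le (by linarith), ← hφi]
    refine setIntegral_eq_integral_of_forall_compl_eq_zero fun u hu => ?_
    by_contra h
    have : u ∈ support φ := h
    rw [hφsup, mem_ball_zero_iff, Real.norm_eq_abs, abs_lt] at this
    exact hu ⟨by linarith [this.1], by linarith [this.2]⟩
  have h2 : ∀ x, x ≤ -1 → ψ x = -1 := by
    intro x hx
    have h3 := hodd (-x)
    rw [neg_neg, h1 (-x) (by linarith)] at h3
    exact h3
  have hmono : Monotone ψ := monotone_of_deriv_nonneg (hψs.differentiable (by simp)) hd0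
  have hstrict : StrictMonoOn ψ (Icc (-1) 1) := by
    refine strictMonoOn_of_deriv_pos (convex_Icc _ _) hψs.continuous.continuousOn fun x hx => ?_
    rw [interior_Icc] at hx
    exact hdp x (abs_lt.2 hx)
  have hb : ∀ x, |ψ x| ≤ 1 := by
    intro x
    refine abs_le.2 ⟨?_, ?_⟩
    · have := hmono (min_le_left x (-1))
      rw [h2 _ (min_le_right x (-1))] at this
      exact this
    · have := hmono (le_max_left x 1)
      rw [h1 _ (le_max_right x 1)] at this
      exact this
  have hlt : ∀ x, |x| < 1 → |ψ x| < 1 := by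
    intro x hx
    have hx' := abs_lt.1 hx
    refine abs_lt.2 ⟨?_, ?_⟩
    · have := hstrict ⟨le_rfl, by norm_num⟩ ⟨hx'.1.le, hx'.2.le⟩ hx'.1
      rwa [h2 (-1) le_rfl] at this
    · have := hstrict ⟨hx'.1.le, hx'.2.le⟩ ⟨by norm_num, le_rfl⟩ hx'.2
      rwa [h1 1 le_rfl] at this
  have hpos : ∀ x, 0 < x → 0 < ψ x := by
    intro x hx
    rcases le_or_gt 1 x with h | h
    · rw [h1 x h]
      exact one_pos
    · have := hstrict ⟨by norm_num, by norm_num⟩ ⟨by linarith, h.le⟩ hx
      rwa [hψ0] at this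
  have hneg : ∀ x, x < 0 → ψ x < 0 := by
    intro x hx
    have := hpos (-x) (by linarith)
    rw [hodd] at this
    linarith
  refine ⟨ψ, hψs, hb, h1, h2, hlt, hdp, hd0, fun x hx => ?_, hψ0, fun x => ⟨fun h => ?_, hpos x⟩,
    fun x => ⟨fun h => ?_, hneg x⟩⟩
  · rw [hder, hφz x hx, hφz (-x) (by rwa [abs_neg]), add_zero]
  · by_contra hn
    rcases eq_or_lt_of_le (not_lt.1 hn) with h0 | h0
    · rw [h0, hψ0] at h
      exact lt_irrefl _ h
    · exact lt_asymm h (hneg x h0)
  · by_contra hn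
    rcases eq_or_lt_of_le (not_lt.1 hn) with h0 | h0
    · rw [← h0, hψ0] at h
      exact lt_irrefl _ h
    · exact lt_asymm h (hpos x h0)

end Pool.Agent.K7.H28.GS
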