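import Pool.Agent.K7.H28.GS.L6

/-!
# The level sets are regular
-/

set_option autoImplicit false

open Set Filter Topology Metric Function MeasureTheory
open scoped ContDiff NNReal

noncomputable section

namespace Pool.Agent.K7.H28.GS

open Pool.Agent.Y522 Pool.Agent.Y954.SH Pool.Agent.K7.H28.AF Pool.Agent.K7.H28.CB
open Pool.Agent.Y207.SH3 (kr_smul_integrable kr_cont kr_support)

variable {n : ℕ}

/-- slowly varying scales -/
structure Scl (ε : ℝ) (ρ : E n → ℝ) : Prop where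
  smooth : ContDiff ℝ ∞ ρ
  pos : ∀ x, 0 < ρ x
  slow : ∀ x, ‖fderiv ℝ ρ x‖ ≤ ε

theorem Scl.lip {ε : ℝ} {ρ : E n → ℝ} (h : Scl ε ρ) (x y : E n) : |ρ x - ρ y| ≤ ε * ‖x - y‖ := by
  have h1 := (convex_univ (𝕜 := ℝ) (E := E n)).norm_image_sub_le_of_norm_fderiv_le (f := ρ) (C := ε)
    (fun z _ => (h.smooth.differentiable (by simp)) z) (fun z _ => h.slow z) (mem_univ y)
    (mem_univ x)
  rwa [Real.norm_eq_abs] at h1

def IncrP (n : ℕ) (θ β c₀ δ₀ : ℝ) : Prop :=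
  ∀ (G : E n → ℝ) (p ν : E n) (σ : ℝ), Continuous G →
      (∀ z, |G z| ≤ 1) → ‖ν‖ = 1 → 0 < σ → Cone (fun w => G (p + σ • w)) ν θ δ₀ →
      ∀ b c' : ℝ, 0 < b → b ≤ δ₀ * σ → |c' - σ| ≤ δ₀ * b →
      -(c₀ / 6) * (b / σ) ≤ MJ G (p + b • ν, c') - MJ G (p, σ) ∧
      ((∃ y₀, ‖y₀ - p‖ ≤ (1 - β) * σ ∧ |G y₀| < 1) →
        2 / 3 * c₀ * (b / σ) ≤ MJ G (p + b • ν, c') - MJ G (p, σ))

def AltP (n : ℕ) (β : ℝ) : Prop :=
  ∀ (G : E n → ℝ) (p : E n) (σ : ℝ),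
    Continuous G → (∀ z, |G z| ≤ 1) → 0 < σ →
    (∃ y₀, ‖y₀ - p‖ ≤ (1 - β) * σ ∧ |G y₀| < 1) ∨
    ((∀ y, ‖y - p‖ ≤ (1 - β) * σ → G y = 1) ∧ 1 / 2 ≤ MJ G (p, σ)) ∨
    ((∀ y, ‖y - p‖ ≤ (1 - β) * σ → G y = -1) ∧ MJ G (p, σ) ≤ -1 / 2)

theorem MJ_fderiv {G : E n → ℝ} (hG : ContDiff ℝ ∞ G) (p v : E n) (c d : ℝ) :
    fderiv ℝ (MJ G) (p, c) (v, d) = ∫ s, kr n s * fderiv ℝ G (p + c • s) (v + d • s) := by
  have h1 := MJ_deriv hG p v c d
  have h2 : HasDerivAt (fun h : ℝ => (p + h • v, c + h * d)) (v, d) 0 := by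
    have e1 : HasDerivAt (fun h : ℝ => p + h • v) ((1 : ℝ) • v) 0 :=
      ((hasDerivAt_id (0 : ℝ)).smul_const v).const_add p
    have e2 : HasDerivAt (fun h : ℝ => c + h * d) (1 * d) 0 :=
      ((hasDerivAt_id (0 : ℝ)).mul_const d).const_add c
    rw [one_smul] at e1
    rw [one_mul] at e2
    exact e1.prodMk e2
  have h3 : HasFDerivAt (MJ G) (fderiv ℝ (MJ G) (p, c)) (p + (0 : ℝ) • v, c + 0 * d) := by
    rw [zero_smul, add_zero, zero_mul, add_zero]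
    exact (((MJ_smooth hG).differentiable (by simp)) _).hasFDerivAt
  have h4 := h3.comp_hasDerivAt (0 : ℝ) h2
  exact h4.unique h1

theorem exists_lt_one {G : E n → ℝ} (hG : Continuous G) (hG1 : ∀ z, |G z| ≤ 1) {p : E n} {c : ℝ}
    (hc : 0 ≤ c) (h0 : MJ G (p, c) = 0) : ∃ y, ‖y - p‖ ≤ c ∧ |G y| < 1 := by
  by_contra hne
  push Not at hne
  have hin : ∀ s ∈ ball (0 : E n) 1, ‖p + c • s - p‖ ≤ c := by
    intro s hs
    rw [mem_ball_zero_iff] at hs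
    rw [add_sub_cancel_left, norm_smul, Real.norm_of_nonneg hc]
    nlinarith
  have hcs := const_sign (g := fun s : E n => G (p + c • s)) (S := ball 0 1)
    (hG.comp (by fun_prop : Continuous fun s : E n => p + c • s))
    (convex_ball _ _).isPreconnected (fun z => hG1 _) (fun z hz => not_lt.2 (hne _ (hin z hz)))
  rcases hcs with h1 | h1
  · rw [MJ_one h1] at h0
    norm_num at h0
  · rw [MJ_one h1] at h0
    norm_num at h0

theorem line_deriv {F : E n × ℝ → ℝ} (hF : ContDiff ℝ ∞ F) (p ν : E n) (t : ℝ) :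
    HasDerivAt (fun b : ℝ => F (p + b • ν, t)) (fderiv ℝ F (p, t) (ν, 0)) 0 := by
  have h2 : HasDerivAt (fun b : ℝ => (p + b • ν, t)) (ν, 0) 0 := by
    have e1 : HasDerivAt (fun h : ℝ => p + h • ν) ((1 : ℝ) • ν) 0 :=
      ((hasDerivAt_id (0 : ℝ)).smul_const ν).const_add p
    rw [one_smul] at e1
    exact e1.prodMk (hasDerivAt_const _ _)
  have h3 : HasFDerivAt F (fderiv ℝ F (p, t)) (p + (0 : ℝ) • ν, t) := by
    rw [zero_smul, add_zero]
    exact ((hF.differentiable (by simp)) _).hasFDerivAt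
  exact h3.comp_hasDerivAt (0 : ℝ) h2

theorem smooth1 {ψ : ℝ → ℝ} (hψ : Prf ψ) {h ρ : E n → ℝ} (hh : Dfn h) {ε : ℝ} (hρ : Scl ε ρ)
    (N : ℝ) : ContDiff ℝ ∞ (fun q : E n × ℝ => MJ (fun y => ψ (N * h y)) (q.1, q.2 * ρ q.1 / 16)) := by
  have hG : ContDiff ℝ ∞ fun y => ψ (N * h y) := hψ.smooth.comp (contDiff_const.mul hh.smooth)
  refine (MJ_smooth hG).comp (contDiff_fst.prodMk ?_)
  exact (contDiff_snd.mul (hρ.smooth.comp contDiff_fst)).div_const _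

theorem regular1 {θ β c₀ δ₀ ε : ℝ} (hθ : 0 < θ) (hc₀ : 0 < c₀) (hδ₀ : 0 < δ₀) (hδ₁ : δ₀ ≤ 1 / 4)
    (hε : 0 ≤ ε) (hεδ : 32 * ε ≤ δ₀) (hβ : 0 < β) (hI : IncrP n (θ / 2) β c₀ δ₀) (hA : AltP n β)
    {ψ : ℝ → ℝ} (hψ : Prf ψ) {h ρ : E n → ℝ} (hh : Dfn h) (hρ : Scl ε ρ)
    (hC : ∀ x, h x = 0 → ∀ r, 0 < r → r ≤ ρ x → ∃ ν : E n, ‖ν‖ = 1 ∧ Crs θ ε h x r ν) :
    ∃ N₀ : ℝ, 0 < N₀ ∧ ∀ N, N₀ ≤ N → ∀ (p : E n) (t : ℝ), 0 ≤ t → t ≤ 1 →
      MJ (fun y => ψ (N * h y)) (p, t * ρ p / 16) = 0 → ∃ v : E n,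
        fderiv ℝ (fun q : E n × ℝ => MJ (fun y => ψ (N * h y)) (q.1, q.2 * ρ q.1 / 16)) (p, t)
          (v, 0) ≠ 0 := by
  obtain ⟨r, hr, hnor⟩ := normal hh
  obtain ⟨d, hdd⟩ : ∃ d : ℝ, d = min (r / 8) (θ * δ₀ * r / 64) := ⟨_, rfl⟩
  have hd0 : 0 < d := by rw [hdd]; exact lt_min (by positivity) (by positivity)
  have hd1 : d ≤ r / 8 := by rw [hdd]; exact min_le_left _ _
  have hd2 : d ≤ θ * δ₀ * r / 64 := by rw [hdd]; exact min_le_right _ _
  obtain ⟨κ, hκ, hlay⟩ := layer hh hd0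
  refine ⟨1 / κ, by positivity, ?_⟩
  intro N hN p t ht0 ht1 hzero
  have hN0 : 0 < N := lt_of_lt_of_le (by positivity) hN
  have hlay' : ∀ y, |N * h y| < 1 → ∃ x', h x' = 0 ∧ ‖x' - y‖ ≤ d := by
    intro y hy
    apply hlay
    rw [abs_mul, abs_of_pos hN0] at hy
    have h1 : 1 ≤ N * κ := by
      rw [div_le_iff₀ hκ] at hN
      exact hN
    nlinarith [abs_nonneg (h y)]
  have hGs : ContDiff ℝ ∞ fun y => ψ (N * h y) := hψ.smooth.comp (contDiff_const.mul hh.smooth)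
  have hG1 : ∀ z, |ψ (N * h z)| ≤ 1 := fun z => hψ.le _
  have hlt : ∀ y, |ψ (N * h y)| < 1 → |N * h y| < 1 := by
    intro y hy
    by_contra hn
    rw [not_lt] at hn
    rcases le_abs.1 hn with h2 | h2
    · rw [hψ.one _ h2, abs_one] at hy
      exact lt_irrefl _ hy
    · rw [hψ.neg _ (by linarith), abs_neg, abs_one] at hy
      exact lt_irrefl _ hy
  have hFs := smooth1 hψ hh hρ N
  obtain ⟨σ, hσd⟩ : ∃ σ : ℝ, σ = t * ρ p / 16 := ⟨_, rfl⟩
  have hρp := hρ.pos p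
  have hσ0 : 0 ≤ σ := by rw [hσd]; positivity
  have hσ1 : σ ≤ ρ p / 16 := by
    rw [hσd]
    have : t * ρ p ≤ ρ p := by nlinarith
    linarith
  rw [← hσd] at hzero
  rcases le_or_gt σ (r / 8) with hs | hs
  · -- small scales
    obtain ⟨y₁, hy1, hy2⟩ := exists_lt_one hGs.continuous hG1 hσ0 hzero
    obtain ⟨x, hx, hxd⟩ := hlay' y₁ (hlt y₁ hy2)
    obtain ⟨ν, hν, hpos⟩ := hnor x hx
    obtain ⟨e, hed⟩ : ∃ e : ℝ, e = t * fderiv ℝ ρ p ν / 16 := ⟨_, rfl⟩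
    have he : |e| ≤ 1 / 2 := by
      have h1 := (fderiv ℝ ρ p).le_opNorm ν
      rw [hν, mul_one, Real.norm_eq_abs] at h1
      have h2 := hρ.slow p
      rw [hed, abs_div, abs_mul, abs_of_nonneg ht0, abs_of_pos (by norm_num : (0 : ℝ) < 16),
        div_le_iff₀ (by norm_num)]
      have h3 : t * |fderiv ℝ ρ p ν| ≤ 1 * 1 :=
        mul_le_mul ht1 (by linarith) (abs_nonneg _) zero_le_one
      linarith
    have key := small_scale hψ hh.smooth hN0 (p := p) (ν := ν) (c := σ) (d := e) hσ0 he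
      (fun y hy v hv => hpos y (by
        have e1 : y - x = (y - p) - (y₁ - p) - (x - y₁) := by abel
        rw [e1]
        have e2 := norm_sub_le ((y - p) - (y₁ - p)) (x - y₁)
        have e3 := norm_sub_le (y - p) (y₁ - p)
        linarith) v hv) hzero
    refine ⟨ν, ?_⟩
    have h1 := line_deriv hFs p ν t
    have h2 : HasDerivAt (fun b : ℝ => (p + b • ν, t * ρ (p + b • ν) / 16)) (ν, e) 0 := by
      have e1 : HasDerivAt (fun h : ℝ => p + h • ν) ((1 : ℝ) • ν) 0 :=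
        ((hasDerivAt_id (0 : ℝ)).smul_const ν).const_add p
      rw [one_smul] at e1
      have e2 : HasFDerivAt ρ (fderiv ℝ ρ p) (p + (0 : ℝ) • ν) := by
        rw [zero_smul, add_zero]
        exact ((hρ.smooth.differentiable (by simp)) _).hasFDerivAt
      have e3 := ((e2.comp_hasDerivAt (0 : ℝ) e1).const_mul t).div_const 16
      rw [hed]
      exact e1.prodMk e3
    have h3 : HasFDerivAt (MJ fun y => ψ (N * h y)) (fderiv ℝ (MJ fun y => ψ (N * h y)) (p, σ))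
        (p + (0 : ℝ) • ν, t * ρ (p + (0 : ℝ) • ν) / 16) := by
      rw [zero_smul, add_zero, ← hσd]
      exact (((MJ_smooth hGs).differentiable (by simp)) _).hasFDerivAt
    have h4' := h3.comp_hasDerivAt (0 : ℝ) h2
    have h4 := h4'.unique h1
    rw [← h4, MJ_fderiv hGs]
    exact key.ne'
  · -- large scales
    have hσp : 0 < σ := lt_trans (by positivity) hs
    have hy0 : ∃ y₀, ‖y₀ - p‖ ≤ (1 - β) * σ ∧ |ψ (N * h y₀)| < 1 := by
      rcases hA (fun y => ψ (N * h y)) p σ hGs.continuous hG1 hσp with h1 | h1 | h1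
      · exact h1
      · rw [hzero] at h1
        linarith [h1.2]
      · rw [hzero] at h1
        linarith [h1.2]
    obtain ⟨y₀, hy1, hy2⟩ := hy0
    obtain ⟨x, hx, hxd⟩ := hlay' y₀ (hlt y₀ hy2)
    have hy3 : ‖y₀ - p‖ ≤ σ := hy1.trans (by nlinarith)
    have hdσ : d ≤ σ := by linarith
    have hxp : ‖x - p‖ ≤ 2 * σ := by
      have e1 : x - p = (x - y₀) + (y₀ - p) := by abel
      rw [e1]
      refine (norm_add_le _ _).trans ?_
      linarith
    have hρx : ρ p / 2 ≤ ρ x := by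
      have h1 := (abs_le.1 (hρ.lip x p)).1
      have h2 : ε * ‖x - p‖ ≤ 1 * (2 * σ) :=
        mul_le_mul (by linarith) hxp (norm_nonneg _) zero_le_one
      linarith
    obtain ⟨ν, hν, hcr⟩ := hC x hx (8 * σ) (by positivity) (by linarith)
    have hcone := cone_of_coarse hψ hθ hδ₀ hσp hε hεδ le_rfl (by linarith) hxp hcr hlay' hN0 hd0.le
      (by
        have e1 : θ * δ₀ * (r / 8) ≤ θ * δ₀ * σ :=
          mul_le_mul_of_nonneg_left hs.le (by positivity)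
        linarith) hdσ
    refine ⟨ν, ?_⟩
    have h1 := line_deriv hFs p ν t
    have h2 : 2 / 3 * c₀ / σ ≤ fderiv ℝ (fun q : E n × ℝ =>
        MJ (fun y => ψ (N * h y)) (q.1, q.2 * ρ q.1 / 16)) (p, t) (ν, 0) := by
      refine deriv_ge h1 (δ := δ₀ * σ) (by positivity) fun b hb hb1 => ?_
      have h3 := (hI (fun y => ψ (N * h y)) p ν σ hGs.continuous hG1 hν hσp hcone b
        (t * ρ (p + b • ν) / 16) hb hb1 (by
          have h4 := hρ.lip (p + b • ν) p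
          rw [add_sub_cancel_left, norm_smul, hν, mul_one, Real.norm_of_nonneg hb.le] at h4
          have h5 : t * ρ (p + b • ν) / 16 - σ = t * (ρ (p + b • ν) - ρ p) / 16 := by
            rw [hσd]
            ring
          rw [h5, abs_div, abs_mul, abs_of_nonneg ht0, abs_of_pos (by norm_num : (0 : ℝ) < 16),
            div_le_iff₀ (by norm_num)]
          have h6 : t * |ρ (p + b • ν) - ρ p| ≤ 1 * (ε * b) :=
            mul_le_mul ht1 h4 (abs_nonneg _) zero_le_one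
          have h7 : ε * b ≤ δ₀ * b := mul_le_mul_of_nonneg_right (by linarith) hb.le
          have h8 : 0 ≤ δ₀ * b := by positivity
          linarith)).2 ⟨y₀, hy1, hy2⟩
      simp only [zero_smul, add_zero]
      rw [← hσd]
      refine le_trans (le_of_eq ?_) h3
      field_simp
    have h5 : 0 < 2 / 3 * c₀ / σ := by positivity
    exact (lt_of_lt_of_le h5 h2).ne'

end Pool.Agent.K7.H28.GS
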