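import Pool.Agent.K7.H28.GS.L7

/-!
# Two coarse graphs in common directions
-/

set_option autoImplicit false

open Set Filter Topology Metric Function MeasureTheory
open scoped ContDiff NNReal

noncomputable section

namespace Pool.Agent.K7.H28.GS

open Pool.Agent.Y522 Pool.Agent.Y954.SH Pool.Agent.K7.H28.AF Pool.Agent.K7.H28.CB
open Pool.Agent.Y207.SH3 (kr_smul_integrable kr_cont kr_support)

variable {n : ℕ}

theorem smooth2 {ψ : ℝ → ℝ} (hψ : Prf ψ) {h k ρ : E n → ℝ} (hh : Dfn h) (hk : Dfn k) {ε : ℝ}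
    (hρ : Scl ε ρ) (N : ℝ) : ContDiff ℝ ∞ (fun q : E n × ℝ =>
      (1 - q.2) * MJ (fun y => ψ (N * h y)) (q.1, ρ q.1 / 16) +
        q.2 * MJ (fun y => ψ (N * k y)) (q.1, ρ q.1 / 16)) := by
  have hG : ContDiff ℝ ∞ fun y => ψ (N * h y) := hψ.smooth.comp (contDiff_const.mul hh.smooth)
  have hG' : ContDiff ℝ ∞ fun y => ψ (N * k y) := hψ.smooth.comp (contDiff_const.mul hk.smooth)
  have h1 : ContDiff ℝ ∞ fun q : E n × ℝ => (q.1, ρ q.1 / 16) :=
    contDiff_fst.prodMk ((hρ.smooth.comp contDiff_fst).div_const _)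
  exact ((contDiff_const.sub contDiff_snd).mul ((MJ_smooth hG).comp h1)).add
    (contDiff_snd.mul ((MJ_smooth hG').comp h1))

theorem regular2 {θ β c₀ δ₀ ε : ℝ} (hθ : 0 < θ) (hc₀ : 0 < c₀) (hδ₀ : 0 < δ₀) (hδ₁ : δ₀ ≤ 1 / 4)
    (hε : 0 ≤ ε) (hεδ : 32 * ε ≤ δ₀) (hβ : 0 < β) (hβ1 : β ≤ 1 / 2)
    (hI : IncrP n (θ / 2) β c₀ δ₀) (hA : AltP n β)
    {ψ : ℝ → ℝ} (hψ : Prf ψ) {h k ρ : E n → ℝ} (hh : Dfn h) (hk : Dfn k) (hρ : Scl ε ρ)
    (hC : ∀ x, h x * k x = 0 → ∃ ν : E n, ‖ν‖ = 1 ∧ Crs θ ε h x (ρ x) ν ∧ Crs θ ε k x (ρ x) ν)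
    (hclose : ∀ y, h y * k y < 0 → ∃ x, h x * k x = 0 ∧ ‖x - y‖ ≤ ρ y / 32) :
    ∃ N₀ : ℝ, 0 < N₀ ∧ ∀ N, N₀ ≤ N → ∀ (p : E n) (t : ℝ), 0 ≤ t → t ≤ 1 →
      (1 - t) * MJ (fun y => ψ (N * h y)) (p, ρ p / 16) +
        t * MJ (fun y => ψ (N * k y)) (p, ρ p / 16) = 0 → ∃ v : E n,
        fderiv ℝ (fun q : E n × ℝ => (1 - q.2) * MJ (fun y => ψ (N * h y)) (q.1, ρ q.1 / 16) +
          q.2 * MJ (fun y => ψ (N * k y)) (q.1, ρ q.1 / 16)) (p, t) (v, 0) ≠ 0 := by
  obtain ⟨R₁, c₁, hc₁, hR₁⟩ := hh.far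
  obtain ⟨R₂, c₂, hc₂, hR₂⟩ := hk.far
  obtain ⟨R, hRd⟩ : ∃ R : ℝ, R = max (max R₁ R₂) 0 := ⟨_, rfl⟩
  have hR0 : 0 ≤ R := by rw [hRd]; exact le_max_right _ _
  have hRR1 : R₁ ≤ R := by rw [hRd]; exact (le_max_left _ _).trans (le_max_left _ _)
  have hRR2 : R₂ ≤ R := by rw [hRd]; exact (le_max_right _ _).trans (le_max_left _ _)
  obtain ⟨y₁, _, hmin⟩ := (isCompact_closedBall (0 : E n) R).exists_isMinOn
    ⟨0, mem_closedBall_self hR0⟩ hρ.smooth.continuous.continuousOn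
  obtain ⟨m, hmd⟩ : ∃ m : ℝ, m = ρ y₁ := ⟨_, rfl⟩
  have hm : 0 < m := by rw [hmd]; exact hρ.pos _
  have hmρ : ∀ y : E n, ‖y‖ ≤ R → m ≤ ρ y := fun y hy => by
    rw [hmd]
    exact hmin (mem_closedBall_zero_iff.2 hy)
  obtain ⟨d, hdd⟩ : ∃ d : ℝ, d = min (m / 32) (θ * δ₀ * m / 128) := ⟨_, rfl⟩
  have hd0 : 0 < d := by rw [hdd]; exact lt_min (by positivity) (by positivity)
  have hd1 : d ≤ m / 32 := by rw [hdd]; exact min_le_left _ _
  have hd2 : d ≤ θ * δ₀ * m / 128 := by rw [hdd]; exact min_le_right _ _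
  obtain ⟨κ₁, hκ₁, hlay₁⟩ := layer hh hd0
  obtain ⟨κ₂, hκ₂, hlay₂⟩ := layer hk hd0
  refine ⟨1 / κ₁ + 1 / κ₂ + 1 / c₁ + 1 / c₂, by positivity, ?_⟩
  intro N hN p t ht0 ht1 hzero
  have p1 : 0 < 1 / κ₁ := by positivity
  have p2 : 0 < 1 / κ₂ := by positivity
  have p3 : 0 < 1 / c₁ := by positivity
  have p4 : 0 < 1 / c₂ := by positivity
  have hN0 : 0 < N := by linarith
  have hNq : ∀ κ : ℝ, 0 < κ → 1 / κ ≤ N → 1 ≤ N * κ := by
    intro κ hκ h1
    rwa [div_le_iff₀ hκ] at h1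
  have hlay1' : ∀ y, |N * h y| < 1 → ∃ x', h x' = 0 ∧ ‖x' - y‖ ≤ d := by
    intro y hy
    apply hlay₁
    rw [abs_mul, abs_of_pos hN0] at hy
    have h1 := hNq κ₁ hκ₁ (by linarith)
    nlinarith [abs_nonneg (h y)]
  have hlay2' : ∀ y, |N * k y| < 1 → ∃ x', k x' = 0 ∧ ‖x' - y‖ ≤ d := by
    intro y hy
    apply hlay₂
    rw [abs_mul, abs_of_pos hN0] at hy
    have h1 := hNq κ₂ hκ₂ (by linarith)
    nlinarith [abs_nonneg (k y)]
  have hGs : ContDiff ℝ ∞ fun y => ψ (N * h y) := hψ.smooth.comp (contDiff_const.mul hh.smooth)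
  have hGs' : ContDiff ℝ ∞ fun y => ψ (N * k y) := hψ.smooth.comp (contDiff_const.mul hk.smooth)
  have hG1 : ∀ z, |ψ (N * h z)| ≤ 1 := fun z => hψ.le _
  have hG1' : ∀ z, |ψ (N * k z)| ≤ 1 := fun z => hψ.le _
  have hlt : ∀ a : ℝ, |ψ a| < 1 → |a| < 1 := by
    intro a ha
    by_contra hn
    rw [not_lt] at hn
    rcases le_abs.1 hn with h2 | h2
    · rw [hψ.one _ h2, abs_one] at ha
      exact lt_irrefl _ ha
    · rw [hψ.neg _ (by linarith), abs_neg, abs_one] at ha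
      exact lt_irrefl _ ha
  have hin1 : ∀ y : E n, |ψ (N * h y)| < 1 → ‖y‖ ≤ R := by
    intro y hy
    by_contra hn
    have h1 := hR₁ y (hRR1.trans (not_le.1 hn).le)
    have h2 := hNq c₁ hc₁ (by linarith)
    have h3 := (abs_lt.1 (hlt _ hy)).2
    nlinarith
  have hin2 : ∀ y : E n, |ψ (N * k y)| < 1 → ‖y‖ ≤ R := by
    intro y hy
    by_contra hn
    have h1 := hR₂ y (hRR2.trans (not_le.1 hn).le)
    have h2 := hNq c₂ hc₂ (by linarith)
    have h3 := (abs_lt.1 (hlt _ hy)).2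
    nlinarith
  obtain ⟨σ, hσd⟩ : ∃ σ : ℝ, σ = ρ p / 16 := ⟨_, rfl⟩
  have hρp := hρ.pos p
  have hσ0 : 0 < σ := by rw [hσd]; positivity
  have hσ16 : ρ p = 16 * σ := by rw [hσd]; ring
  have hFs := smooth2 hψ hh hk hρ N
  rw [← hσd] at hzero
  have hε1 : ε ≤ 1 := by linarith
  -- consequences of a point of transition near `p`
  have main : ∀ y₀ : E n, ‖y₀ - p‖ ≤ σ → ‖y₀‖ ≤ R →
      ((∃ x, h x = 0 ∧ ‖x - y₀‖ ≤ d) ∨ ∃ x, k x = 0 ∧ ‖x - y₀‖ ≤ d) →
      ∃ ν : E n, ‖ν‖ = 1 ∧ Cone (fun w => ψ (N * h (p + σ • w))) ν (θ / 2) δ₀ ∧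
        Cone (fun w => ψ (N * k (p + σ • w))) ν (θ / 2) δ₀ := by
    intro y₀ hy1 hyR hy2
    have hσm : m / 32 ≤ σ := by
      have h1 := (abs_le.1 (hρ.lip y₀ p)).2
      have h2 : ε * ‖y₀ - p‖ ≤ 1 * σ := mul_le_mul hε1 hy1 (norm_nonneg _) zero_le_one
      have h3 := hmρ y₀ hyR
      linarith
    obtain ⟨x, hx, hxd⟩ : ∃ x, h x * k x = 0 ∧ ‖x - y₀‖ ≤ d := by
      rcases hy2 with ⟨x, hx, hxd⟩ | ⟨x, hx, hxd⟩
      · exact ⟨x, by rw [hx, zero_mul], hxd⟩
      · exact ⟨x, by rw [hx, mul_zero], hxd⟩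
    have hxp : ‖x - p‖ ≤ 2 * σ := by
      have e1 : x - p = (x - y₀) + (y₀ - p) := by abel
      rw [e1]
      refine (norm_add_le _ _).trans ?_
      linarith
    have hρx := abs_le.1 (hρ.lip x p)
    have h2 : ε * ‖x - p‖ ≤ 1 * (2 * σ) := mul_le_mul hε1 hxp (norm_nonneg _) zero_le_one
    obtain ⟨ν, hν, hcr1, hcr2⟩ := hC x hx
    have h4d : 4 * d ≤ θ * δ₀ * σ := by
      have e1 : θ * δ₀ * (m / 32) ≤ θ * δ₀ * σ := mul_le_mul_of_nonneg_left hσm (by positivity)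
      linarith
    refine ⟨ν, hν, ?_, ?_⟩
    · exact cone_of_coarse hψ hθ hδ₀ hσ0 hε hεδ (by linarith [hρx.1]) (by linarith [hρx.2]) hxp hcr1
        hlay1' hN0 hd0.le h4d (by linarith)
    · exact cone_of_coarse hψ hθ hδ₀ hσ0 hε hεδ (by linarith [hρx.1]) (by linarith [hρx.2]) hxp hcr2
        hlay2' hN0 hd0.le h4d (by linarith)
  -- from increments to the derivative
  have fin : ∀ (ν : E n) (e₁ e₂ : ℝ), ‖ν‖ = 1 → 1 / 9 ≤ (1 - t) * e₁ + t * e₂ →
      (∀ b, 0 < b → b ≤ δ₀ * σ → e₁ * c₀ * (b / σ) ≤ MJ (fun y => ψ (N * h y))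
        (p + b • ν, ρ (p + b • ν) / 16) - MJ (fun y => ψ (N * h y)) (p, σ)) →
      (∀ b, 0 < b → b ≤ δ₀ * σ → e₂ * c₀ * (b / σ) ≤ MJ (fun y => ψ (N * k y))
        (p + b • ν, ρ (p + b • ν) / 16) - MJ (fun y => ψ (N * k y)) (p, σ)) →
      ∃ v : E n, fderiv ℝ (fun q : E n × ℝ => (1 - q.2) * MJ (fun y => ψ (N * h y))
        (q.1, ρ q.1 / 16) + q.2 * MJ (fun y => ψ (N * k y)) (q.1, ρ q.1 / 16)) (p, t) (v, 0) ≠ 0 := by
    intro ν e₁ e₂ hν he h1 h2
    refine ⟨ν, ?_⟩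
    have h3 := line_deriv hFs p ν t
    have h4 : 1 / 9 * c₀ / σ ≤ fderiv ℝ (fun q : E n × ℝ => (1 - q.2) * MJ (fun y => ψ (N * h y))
        (q.1, ρ q.1 / 16) + q.2 * MJ (fun y => ψ (N * k y)) (q.1, ρ q.1 / 16)) (p, t) (ν, 0) := by
      refine deriv_ge h3 (δ := δ₀ * σ) (by positivity) fun b hb hb1 => ?_
      simp only [zero_smul, add_zero]
      rw [← hσd]
      have g1 := mul_le_mul_of_nonneg_left (h1 b hb hb1) (sub_nonneg.2 ht1)
      have g2 := mul_le_mul_of_nonneg_left (h2 b hb hb1) ht0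
      have hq : 0 < c₀ * (b / σ) := by positivity
      have g3 : 1 / 9 * c₀ / σ * b ≤ ((1 - t) * e₁ + t * e₂) * (c₀ * (b / σ)) := by
        have e1 : 1 / 9 * c₀ / σ * b = 1 / 9 * (c₀ * (b / σ)) := by ring
        rw [e1]
        exact mul_le_mul_of_nonneg_right he hq.le
      nlinarith
    have h5 : 0 < 1 / 9 * c₀ / σ := by positivity
    exact (lt_of_lt_of_le h5 h4).ne'
  have hcc : ∀ (ν : E n) (b : ℝ), ‖ν‖ = 1 → 0 < b → |ρ (p + b • ν) / 16 - σ| ≤ δ₀ * b := by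
    intro ν b hν hb
    have h4 := hρ.lip (p + b • ν) p
    rw [add_sub_cancel_left, norm_smul, hν, mul_one, Real.norm_of_nonneg hb.le] at h4
    have h5 : ρ (p + b • ν) / 16 - σ = (ρ (p + b • ν) - ρ p) / 16 := by
      rw [hσd]
      ring
    rw [h5, abs_div, abs_of_pos (by norm_num : (0 : ℝ) < 16), div_le_iff₀ (by norm_num)]
    have h7 : ε * b ≤ δ₀ * b := mul_le_mul_of_nonneg_right (by linarith) hb.le
    have h8 : 0 ≤ δ₀ * b := by positivity
    linarith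
  -- the increments
  have inc : ∀ (G : E n → ℝ) (ν : E n), Continuous G → (∀ z, |G z| ≤ 1) → ‖ν‖ = 1 →
      Cone (fun w => G (p + σ • w)) ν (θ / 2) δ₀ → (∀ b, 0 < b → b ≤ δ₀ * σ →
        -(1 / 6) * c₀ * (b / σ) ≤ MJ G (p + b • ν, ρ (p + b • ν) / 16) - MJ G (p, σ)) ∧
      ((∃ y₀, ‖y₀ - p‖ ≤ (1 - β) * σ ∧ |G y₀| < 1) → ∀ b, 0 < b → b ≤ δ₀ * σ →
        2 / 3 * c₀ * (b / σ) ≤ MJ G (p + b • ν, ρ (p + b • ν) / 16) - MJ G (p, σ)) := by
    intro G ν hG hGb hν hcone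
    refine ⟨fun b hb hb1 => ?_, fun hy b hb hb1 => ?_⟩
    · have h1 := (hI G p ν σ hG hGb hν hσ0 hcone b _ hb hb1 (hcc ν b hν hb)).1
      refine le_trans (le_of_eq ?_) h1
      ring
    · exact (hI G p ν σ hG hGb hν hσ0 hcone b _ hb hb1 (hcc ν b hν hb)).2 hy
  have hβσ : (1 - β) * σ ≤ σ := by nlinarith
  have a1 := hA (fun y => ψ (N * h y)) p σ hGs.continuous hG1 hσ0
  have a2 := hA (fun y => ψ (N * k y)) p σ hGs'.continuous hG1' hσ0
  rcases a1 with a1 | a1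
  · obtain ⟨y₀, hy1, hy2⟩ := a1
    obtain ⟨ν, hν, hcone1, hcone2⟩ := main y₀ (hy1.trans hβσ) (hin1 y₀ hy2)
      (Or.inl (hlay1' y₀ (hlt _ hy2)))
    have i1 := inc _ ν hGs.continuous hG1 hν hcone1
    have i2 := inc _ ν hGs'.continuous hG1' hν hcone2
    rcases a2 with a2 | a2
    · exact fin ν (2 / 3) (2 / 3) hν (by linarith) (i1.2 ⟨y₀, hy1, hy2⟩) (i2.2 a2)
    · have hb : 1 / 2 ≤ |MJ (fun y => ψ (N * k y)) (p, σ)| := by
        rcases a2 with a2 | a2
        · exact a2.2.trans (le_abs_self _)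
        · rw [le_abs]
          right
          linarith [a2.2]
      have hle : |MJ (fun y => ψ (N * h y)) (p, σ)| ≤ 1 := by
        unfold MJ
        have h1 : ‖∫ s, kr n s * (fun y => ψ (N * h y)) ((p, σ).1 + (p, σ).2 • s)‖ ≤
            ∫ s, kr n s := by
          refine norm_integral_le_of_norm_le kr_integrable (Eventually.of_forall fun s => ?_)
          rw [norm_mul, Real.norm_of_nonneg (kr_nonneg s), Real.norm_eq_abs]
          exact mul_le_of_le_one_right (kr_nonneg s) (hG1 _)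
        rw [kr_int] at h1
        exact h1
      have ht : t ≤ 2 / 3 := by
        have h1 : t * |MJ (fun y => ψ (N * k y)) (p, σ)| =
            (1 - t) * |MJ (fun y => ψ (N * h y)) (p, σ)| := by
          have h2 : t * MJ (fun y => ψ (N * k y)) (p, σ) =
              -((1 - t) * MJ (fun y => ψ (N * h y)) (p, σ)) := by linarith
          have h3 := congrArg abs h2
          rw [abs_neg, abs_mul, abs_mul, abs_of_nonneg ht0, abs_of_nonneg (sub_nonneg.2 ht1)] at h3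
          exact h3
        have h4 := mul_le_mul_of_nonneg_left hb ht0
        have h5 := mul_le_mul_of_nonneg_left hle (sub_nonneg.2 ht1)
        linarith
      exact fin ν (2 / 3) (-(1 / 6)) hν (by linarith) (i1.2 ⟨y₀, hy1, hy2⟩) i2.1
  · rcases a2 with a2 | a2
    · obtain ⟨y₀, hy1, hy2⟩ := a2
      obtain ⟨ν, hν, hcone1, hcone2⟩ := main y₀ (hy1.trans hβσ) (hin2 y₀ hy2)
        (Or.inr (hlay2' y₀ (hlt _ hy2)))
      have i1 := inc _ ν hGs.continuous hG1 hν hcone1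
      have i2 := inc _ ν hGs'.continuous hG1' hν hcone2
      have hb : 1 / 2 ≤ |MJ (fun y => ψ (N * h y)) (p, σ)| := by
        rcases a1 with a1 | a1
        · exact a1.2.trans (le_abs_self _)
        · rw [le_abs]
          right
          linarith [a1.2]
      have hle : |MJ (fun y => ψ (N * k y)) (p, σ)| ≤ 1 := by
        unfold MJ
        have h1 : ‖∫ s, kr n s * (fun y => ψ (N * k y)) ((p, σ).1 + (p, σ).2 • s)‖ ≤
            ∫ s, kr n s := by
          refine norm_integral_le_of_norm_le kr_integrable (Eventually.of_forall fun s => ?_)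
          rw [norm_mul, Real.norm_of_nonneg (kr_nonneg s), Real.norm_eq_abs]
          exact mul_le_of_le_one_right (kr_nonneg s) (hG1' _)
        rw [kr_int] at h1
        exact h1
      have ht : 1 - t ≤ 2 / 3 := by
        have h1 : t * |MJ (fun y => ψ (N * k y)) (p, σ)| =
            (1 - t) * |MJ (fun y => ψ (N * h y)) (p, σ)| := by
          have h2 : t * MJ (fun y => ψ (N * k y)) (p, σ) =
              -((1 - t) * MJ (fun y => ψ (N * h y)) (p, σ)) := by linarith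
          have h3 := congrArg abs h2
          rw [abs_neg, abs_mul, abs_mul, abs_of_nonneg ht0, abs_of_nonneg (sub_nonneg.2 ht1)] at h3
          exact h3
        have h4 := mul_le_mul_of_nonneg_left hb (sub_nonneg.2 ht1)
        have h5 := mul_le_mul_of_nonneg_left hle ht0
        linarith
      exact fin ν (-(1 / 6)) (2 / 3) hν (by linarith) i1.1 (i2.2 ⟨y₀, hy1, hy2⟩)
    · -- no transition near `p`
      exfalso
      have hnear : ∀ y : E n, ‖y - p‖ ≤ (1 - β) * σ → h y * k y ≠ 0 := by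
        intro y hy h0
        rcases mul_eq_zero.1 h0 with h1 | h1
        · rcases a1 with a1 | a1
          · have := a1.1 y hy
            simp only [h1, mul_zero, hψ.zero] at this
            norm_num at this
          · have := a1.1 y hy
            simp only [h1, mul_zero, hψ.zero] at this
            norm_num at this
        · rcases a2 with a2 | a2
          · have := a2.1 y hy
            simp only [h1, mul_zero, hψ.zero] at this
            norm_num at this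
          · have := a2.1 y hy
            simp only [h1, mul_zero, hψ.zero] at this
            norm_num at this
      have hopp : ¬ h p * k p < 0 := by
        intro hneg
        obtain ⟨x, hx, hxd⟩ := hclose p hneg
        refine hnear x (hxd.trans ?_) hx
        rw [hσ16]
        nlinarith
      have hpp : ‖p - p‖ ≤ (1 - β) * σ := by
        rw [sub_self, norm_zero]
        exact mul_nonneg (by linarith) hσ0.le
      have hs : ∀ a : ℝ, (ψ (N * a) = 1 → 0 < a) ∧ (ψ (N * a) = -1 → a < 0) := by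
        intro a
        constructor
        · intro h1
          have h2 : 0 < N * a := (hψ.pos _).1 (by rw [h1]; exact one_pos)
          exact (mul_pos_iff_of_pos_left hN0).1 h2
        · intro h1
          have h2 : N * a < 0 := (hψ.sneg _).1 (by rw [h1]; norm_num)
          by_contra hn
          exact absurd h2 (not_lt.2 (mul_nonneg hN0.le (not_lt.1 hn)))
      rcases a1 with a1 | a1 <;> rcases a2 with a2 | a2
      · have g1 := mul_le_mul_of_nonneg_left a1.2 (sub_nonneg.2 ht1)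
        have g2 := mul_le_mul_of_nonneg_left a2.2 ht0
        linarith
      · exact hopp (mul_neg_of_pos_of_neg ((hs _).1 (a1.1 p hpp)) ((hs _).2 (a2.1 p hpp)))
      · exact hopp (mul_neg_of_neg_of_pos ((hs _).2 (a1.1 p hpp)) ((hs _).1 (a2.1 p hpp)))
      · have g1 := mul_le_mul_of_nonneg_left a1.2 (sub_nonneg.2 ht1)
        have g2 := mul_le_mul_of_nonneg_left a2.2 ht0
        linarith

end Pool.Agent.K7.H28.GS
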