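import Pool.Agent.K7.H28.GS.L8

/-!
# Hypersurfaces which are coarse graphs at all small scales
-/

set_option autoImplicit false

open Set Filter Topology Metric Function MeasureTheory
open scoped ContDiff NNReal

noncomputable section

namespace Pool.Agent.K7.H28.GS

open Pool.Agent.Y522 Pool.Agent.Y954.SH Pool.Agent.K7.H28.AF Pool.Agent.K7.H28.CB
open Pool.Agent.Y207.SH3 (kr_smul_integrable kr_cont kr_support)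

variable {n : ℕ}

theorem far_one {ψ : ℝ → ℝ} (hψ : Prf ψ) {h ρ : E n → ℝ} (hh : Dfn h) {ε : ℝ} (hε1 : ε ≤ 1)
    (hρ : Scl ε ρ) : ∃ K N₀ : ℝ, 0 < N₀ ∧ ∀ N, N₀ ≤ N → ∀ (x : E n) (c : ℝ), K < ‖x‖ → 0 ≤ c →
      c ≤ ρ x / 16 → MJ (fun y => ψ (N * h y)) (x, c) = 1 := by
  obtain ⟨R, c₀, hc₀, hR⟩ := hh.far
  refine ⟨2 * (max R 0 + ρ 0), 1 / c₀, by positivity, ?_⟩
  intro N hN x c hx hc0 hc
  refine MJ_one fun s hs => ?_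
  rw [mem_ball_zero_iff] at hs
  have h1 := (abs_le.1 (hρ.lip x 0)).2
  rw [sub_zero] at h1
  have h2 : ε * ‖x‖ ≤ 1 * ‖x‖ := mul_le_mul_of_nonneg_right hε1 (norm_nonneg _)
  have h3 : ‖x‖ ≤ ‖x + c • s‖ + c := by
    have e : x = (x + c • s) - c • s := by abel
    have e1 := norm_sub_le (x + c • s) (c • s)
    rw [← e, norm_smul, Real.norm_of_nonneg hc0] at e1
    nlinarith
  have h0 := hρ.pos 0
  have hm := le_max_left R 0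
  have hm0 := le_max_right R 0
  have h4 := hR (x + c • s) (by linarith)
  refine hψ.one _ ?_
  have hN1 : 1 ≤ N * c₀ := by rwa [div_le_iff₀ hc₀] at hN
  have hN0 : 0 < N := lt_of_lt_of_le (by positivity) hN
  nlinarith

theorem crs_mono {θ θ' ε : ℝ} (hε : 0 ≤ ε) (hθ : θ' ≤ θ) {h : E n → ℝ} {x : E n} {r : ℝ}
    (hr : 0 ≤ r) {ν : E n} (H : Crs θ ε h x r ν) : Crs θ' ε h x r ν := by
  intro y y' τ hy hy' hτ hd h0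
  have hτ0 : 0 ≤ τ := le_trans (mul_nonneg hε hr) hτ
  exact H y y' τ hy hy' hτ (hd.trans (mul_le_mul_of_nonneg_right hθ hτ0)) h0

/-- a diffeomorphism, the identity near infinity -/
def Cpt (Φ Ψ : E n → E n) : Prop :=
  ContDiff ℝ ∞ Φ ∧ ContDiff ℝ ∞ Ψ ∧ (∀ x, Ψ (Φ x) = x) ∧ (∀ x, Φ (Ψ x) = x) ∧
    ∃ R : ℝ, ∀ x, R ≤ ‖x‖ → Φ x = x

theorem Cpt.symm {Φ Ψ : E n → E n} (h : Cpt Φ Ψ) : Cpt Ψ Φ := by
  obtain ⟨h1, h2, h3, h4, R, hR⟩ := h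
  refine ⟨h2, h1, h4, h3, R, fun x hx => ?_⟩
  have h5 := h3 x
  rw [hR x hx] at h5
  exact h5

theorem Cpt.comp {Φ Ψ Φ' Ψ' : E n → E n} (h : Cpt Φ Ψ) (h' : Cpt Φ' Ψ') :
    Cpt (fun x => Φ' (Φ x)) fun x => Ψ (Ψ' x) := by
  obtain ⟨h1, h2, h3, h4, R, hR⟩ := h
  obtain ⟨g1, g2, g3, g4, R', hR'⟩ := h'
  refine ⟨g1.comp h1, h2.comp g2, fun x => ?_, fun x => ?_, max R R', fun x hx => ?_⟩
  · simp only [g3, h3]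
  · simp only [h4, g4]
  · simp only
    rw [hR x ((le_max_left _ _).trans hx), hR' x ((le_max_right _ _).trans hx)]

theorem exists_constants (n : ℕ) (θ : ℝ) (hθ : 0 < θ) (hθ1 : θ ≤ 1) :
    ∃ β c₀ δ₀ : ℝ, 0 < β ∧ β ≤ 1 / 2 ∧ 0 < c₀ ∧ 0 < δ₀ ∧ δ₀ ≤ 1 / 4 ∧ IncrP n (θ / 2) β c₀ δ₀ ∧
      AltP n β := by
  obtain ⟨β, hβ, hβ1, hA⟩ := alt n
  obtain ⟨c₀, δ₀, h1, h2, h3, h4⟩ := incr n (θ / 2) β (by positivity) (by linarith) hβ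
    (by linarith)
  exact ⟨β, c₀, δ₀, hβ, hβ1, h1, h2, h3, h4, hA⟩

/-- the isotopy through the scales, for one hypersurface -/
theorem through_scales {θ β c₀ δ₀ ε : ℝ} (hθ : 0 < θ) (hc₀ : 0 < c₀) (hδ₀ : 0 < δ₀)
    (hδ₁ : δ₀ ≤ 1 / 4)
    (hε : 0 ≤ ε) (hεδ : 32 * ε ≤ δ₀) (hβ : 0 < β) (hI : IncrP n (θ / 2) β c₀ δ₀) (hA : AltP n β)
    {ψ : ℝ → ℝ} (hψ : Prf ψ) {h ρ : E n → ℝ} (hh : Dfn h) (hρ : Scl ε ρ)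
    (hC : ∀ x, h x = 0 → ∀ r, 0 < r → r ≤ ρ x → ∃ ν : E n, ‖ν‖ = 1 ∧ Crs θ ε h x r ν) :
    ∃ N₀ : ℝ, 0 < N₀ ∧ ∀ N, N₀ ≤ N → ∃ Φ Ψ : E n → E n, Cpt Φ Ψ ∧
      ∀ x, (0 < MJ (fun y => ψ (N * h y)) (Φ x, ρ (Φ x) / 16) ↔ 0 < h x) ∧
        (MJ (fun y => ψ (N * h y)) (Φ x, ρ (Φ x) / 16) < 0 ↔ h x < 0) := by
  obtain ⟨N₁, hN₁, hreg⟩ := regular1 hθ hc₀ hδ₀ hδ₁ hε hεδ hβ hI hA hψ hh hρ hC
  obtain ⟨K, N₂, hN₂, hfar⟩ := far_one hψ hh (by linarith : ε ≤ 1) hρ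
  refine ⟨max N₁ N₂, lt_max_of_lt_left hN₁, ?_⟩
  intro N hN
  have hNa : N₁ ≤ N := (le_max_left _ _).trans hN
  have hNb : N₂ ≤ N := (le_max_right _ _).trans hN
  have hN0 : 0 < N := hN₁.trans_le hNa
  obtain ⟨Φ, Ψ, h1, h2, h3, h4, h5, h6⟩ := level_iso
    (fun q : E n × ℝ => MJ (fun y => ψ (N * h y)) (q.1, q.2 * ρ q.1 / 16)) (smooth1 hψ hh hρ N)
    (closedBall 0 K) (isCompact_closedBall _ _) (fun x t ht0 ht1 hx => by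
      rw [mem_closedBall_zero_iff, not_le] at hx
      have hρx := hρ.pos x
      simp only
      rw [hfar N hNb x (t * ρ x / 16) hx (by positivity) (by nlinarith)]
      exact one_ne_zero) (fun x t ht0 ht1 h0 => hreg N hNa x t ht0 ht1 h0)
  refine ⟨Φ, Ψ, ⟨h1, h2, h3, h4, h5⟩, fun x => ?_⟩
  have h7 := h6 x
  simp only [zero_mul, zero_div, one_mul] at h7
  rw [MJ_zero, hψ.pos, hψ.sneg] at h7
  refine ⟨h7.1.trans ?_, h7.2.trans ?_⟩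
  · exact mul_pos_iff_of_pos_left hN0
  · constructor
    · intro h8
      by_contra hn
      exact absurd h8 (not_lt.2 (mul_nonneg hN0.le (not_lt.1 hn)))
    · exact fun h8 => mul_neg_of_pos_of_neg hN0 h8

/-- **main theorem** -/
theorem main (n : ℕ) (θ : ℝ) (hθ : 0 < θ) (hθ1 : θ ≤ 1) : ∃ ε : ℝ, 0 < ε ∧
    ∀ h k ρ : E n → ℝ, Dfn h → Dfn k → Scl ε ρ →
      (∀ x, h x = 0 → ∀ r, 0 < r → r ≤ ρ x → ∃ ν : E n, ‖ν‖ = 1 ∧ Crs θ ε h x r ν) →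
      (∀ x, k x = 0 → ∀ r, 0 < r → r ≤ ρ x → ∃ ν : E n, ‖ν‖ = 1 ∧ Crs θ ε k x r ν) →
      (∀ x, h x * k x = 0 → ∃ ν : E n, ‖ν‖ = 1 ∧ Crs θ ε h x (ρ x) ν ∧ Crs θ ε k x (ρ x) ν) →
      (∀ y, h y * k y < 0 → ∃ x, h x * k x = 0 ∧ ‖x - y‖ ≤ ρ y / 32) →
      ∃ Φ Ψ : E n → E n, Cpt Φ Ψ ∧ ∀ x, (0 < k (Φ x) ↔ 0 < h x) ∧ (k (Φ x) < 0 ↔ h x < 0) := by
  obtain ⟨β, c₀, δ₀, hβ, hβ1, hc₀, hδ₀, hδ₁, hI, hA⟩ := exists_constants n θ hθ hθ1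
  obtain ⟨ψ, hψ⟩ := exists_prf
  refine ⟨δ₀ / 32, by positivity, ?_⟩
  intro h k ρ hh hk hρ hC1 hC2 hC hclose
  have hε : 0 ≤ δ₀ / 32 := by positivity
  have hεδ : 32 * (δ₀ / 32) ≤ δ₀ := by linarith
  obtain ⟨N₁, hN₁, H1⟩ := through_scales hθ hc₀ hδ₀ hδ₁ hε hεδ hβ hI hA hψ hh hρ hC1
  obtain ⟨N₂, hN₂, H2⟩ := through_scales hθ hc₀ hδ₀ hδ₁ hε hεδ hβ hI hA hψ hk hρ hC2
  obtain ⟨N₃, hN₃, H3⟩ := regular2 hθ hc₀ hδ₀ hδ₁ hε hεδ hβ hβ1 hI hA hψ hh hk hρ hC hclose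
  obtain ⟨K₁, N₄, hN₄, hf1⟩ := far_one hψ hh (by linarith : δ₀ / 32 ≤ 1) hρ
  obtain ⟨K₂, N₅, hN₅, hf2⟩ := far_one hψ hk (by linarith : δ₀ / 32 ≤ 1) hρ
  obtain ⟨N, hNd⟩ : ∃ N : ℝ, N = N₁ + N₂ + N₃ + N₄ + N₅ := ⟨_, rfl⟩
  obtain ⟨Φ₁, Ψ₁, g1, s1⟩ := H1 N (by linarith)
  obtain ⟨Φ₂, Ψ₂, g2, s2⟩ := H2 N (by linarith)
  obtain ⟨Φ₃, Ψ₃, a1, a2, a3, a4, a5, s3⟩ := level_iso
    (fun q : E n × ℝ => (1 - q.2) * MJ (fun y => ψ (N * h y)) (q.1, ρ q.1 / 16) +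
      q.2 * MJ (fun y => ψ (N * k y)) (q.1, ρ q.1 / 16)) (smooth2 hψ hh hk hρ N)
    (closedBall 0 (max K₁ K₂)) (isCompact_closedBall _ _) (fun x t ht0 ht1 hx => by
      rw [mem_closedBall_zero_iff, not_le] at hx
      have hρx := hρ.pos x
      simp only
      rw [hf1 N (by linarith) x (ρ x / 16) ((le_max_left _ _).trans_lt hx) (by positivity) le_rfl,
        hf2 N (by linarith) x (ρ x / 16) ((le_max_right _ _).trans_lt hx) (by positivity) le_rfl]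
      intro h0
      linarith) (fun x t ht0 ht1 h0 => H3 N (by linarith) x t ht0 ht1 h0)
  have g3 : Cpt Φ₃ Ψ₃ := ⟨a1, a2, a3, a4, a5⟩
  refine ⟨_, _, (g1.comp g3).comp g2.symm, fun x => ?_⟩
  have e1 := s1 x
  have e3 := s3 (Φ₁ x)
  simp only [sub_self, zero_mul, one_mul, zero_add, sub_zero, add_zero] at e3
  have e2 := s2 (Ψ₂ (Φ₃ (Φ₁ x)))
  rw [g2.2.2.2.1] at e2
  exact ⟨(e2.1.symm.trans e3.1).trans e1.1, (e2.2.symm.trans e3.2).trans e1.2⟩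

end Pool.Agent.K7.H28.GS
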